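import Pool.Agent.MP_48470b_gt.Bl.Main

/-! Checking tables of majorants. -/

set_option autoImplicit false

namespace Pool.Agent.MP_48470b_gt.Bl

open Dic

/-- all words of length at most `k` -/
def ws : ℕ → List Wr
  | 0 => [[]]
  | k + 1 => [] :: (ws k).flatMap fun J => [0 :: J, 1 :: J, 2 :: J]

theorem mem_ws {k : ℕ} {J : Wr} (h : J.length ≤ k) : J ∈ ws k := by
  induction k generalizing J with
  | zero => simpa [ws] using h
  | succ k ih =>
    rcases J with _ | ⟨i, J⟩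
    · simp [ws]
    · refine List.mem_cons_of_mem _ (List.mem_flatMap.2 ⟨J, ih (Nat.le_of_succ_le_succ h), ?_⟩)
      fin_cases i <;> simp

/-- the position of a word in a table -/
def ix : Wr → ℕ
  | [] => 0
  | i :: J => 5 ^ i.val + ix J

/-- an entry of a packed table -/
def tbn (N : ℕ) (J : Wr) : ℕ := N >>> (72 * ix J) % 2 ^ 72

/-- a packed table -/
def tb (N : ℕ) (J : Wr) : ℚ := mkRat (tbn N J) 16

theorem tb_eq (N : ℕ) (J : Wr) : tb N J = tbn N J / 16 := by simp [tb, Rat.mkRat_eq_div]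

theorem tb_nonneg (N : ℕ) (J : Wr) : 0 ≤ tb N J := by
  rw [tb_eq]
  positivity

/-- words with decreasing letters -/
def rs : List Wr := (ws 4).filter fun J => J.IsChain (· ≥ ·)

/-- comparison with a table -/
def le (b : Wr → ℚ) (N : ℕ) : Bool := rs.all fun I => decide (b I ≤ tb N I)

theorem le_of {b : Wr → ℚ} {N : ℕ} (h : le b N = true) : Le b (tb N) := fun J hJ => by
  have : ((ws 4).all fun J => rs.any fun I => decide (I.Perm J) && ix I == ix J) = true := by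
    decide +kernel
  obtain ⟨I, p, q⟩ := List.any_eq_true.1 (List.all_eq_true.1 this J (mem_ws hJ))
  simp only [Bool.and_eq_true, decide_eq_true_eq, beq_iff_eq] at q
  refine ⟨I, q.1, ?_⟩
  rw [tb, tbn, ← q.2]
  exact of_decide_eq_true (List.all_eq_true.1 h I p)

/-- packed tables -/
structure Tb where
  /-- error in the other charts -/
  E : ℕ
  /-- cut-offs -/
  B : Fin 3 → ℕ
  /-- weights -/
  L : Fin 4 → ℕ
  /-- errors -/
  D : Fin 4 → ℕ
  /-- total error -/
  F : ℕ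

/-- the check -/
def Tb.ok (T : Tb) (d r : ℚ) (γ : Fin 3 → ℚ) (A Z : Fin 3 → Bool) : Bool :=
  le (Gr.eM d r A Z) T.E && le (Gr.eM d r (fun _ => false) Z) (T.D 3) &&
  ([0, 1, 2].all fun i : Fin 3 => !A i ||
    le (Cm (sM d γ i) 4 (ten fun a => sT d (A a))) (T.B i) &&
    le (fun J => Cm (sM d γ i) 4 (tb T.E) J + conv (tb (T.B i)) (fun J => cq r J.length) J)
      (T.D i.castSucc)) &&
  ([0, 1, 2, 3].all fun j : Fin 4 => T.D j == 0 || le (lM (fun i => tb (T.B i)) j) (T.L j)) &&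
  le (fM (fun j => tb (T.L j)) fun j => tb (T.D j)) T.F

theorem Tb.tab {T : Tb} {d r : ℚ} {γ : Fin 3 → ℚ} {A Z : Fin 3 → Bool}
    (h : T.ok d r γ A Z = true) : Tab d r γ A Z (tb T.E) (fun i => tb (T.B i)) (fun j => tb (T.L j)) (fun j => tb (T.D j)) ∧
      Le (fM (fun j => tb (T.L j)) fun j => tb (T.D j)) (tb T.F) := by
  simp only [Tb.ok, Bool.and_eq_true, List.all_eq_true, Bool.or_eq_true, Bool.not_eq_true',
    beq_iff_eq] at h
  obtain ⟨⟨⟨⟨a, b⟩, c⟩, d⟩, e⟩ := h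
  have k := fun i (p : A i = true) => (c i (by fin_cases i <;> simp)).resolve_left (by simp [p])
  exact ⟨⟨le_of a, le_of b, fun _ _ => tb_nonneg _ _, fun _ _ => tb_nonneg _ _,
    fun i p => le_of (k i p).1, fun i p => le_of (k i p).2,
    fun j => (d j (by fin_cases j <;> simp)).imp (fun p => funext fun J => by simp [p, tb_eq, tbn])
      le_of⟩, le_of e⟩

namespace Gr

variable {G : Gr} {P : O3 → Bx → C3} {K : Bx} {r : ℚ} {γ : Fin 3 → ℚ} {ε : ℝ} {y : P3} {T : Tb}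
  {A Z : Fin 3 → Bool}

theorem jet_s (h : Dat G.n P) (hr : 0 < r) (hε : 0 ≤ ε) (hK : Monotone K) (F : G.Face P K r ε)
    (Q : G.Proj K r ε (P none K) (P none K)) (k : G.Core y K) (hγ : G.Pos y K γ A Z)
    (h1 : T.ok G.d r γ A Z = true) :
    Mj y 4 (ch (G.bs P) - P none K) ε (tb T.F) :=
  (jet_bs h hr hε hK F Q k hγ (Tb.tab h1).1).le hε (Tb.tab h1).2

theorem jet_v (h : Dat G.n P) (hr : 0 < r) (hε : 0 ≤ ε) (hK : Monotone K) (F : G.Face P K r ε)
    (Q : ∀ m, G.Proj K r ε (P (oc (ta 2 m)) K) (P (oc m) K)) (k : G.Core y K)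
    (hγ : G.Pos y K γ A Z) (h1 : T.ok G.d r γ A Z = true)
    (m : Fin 4) : Mj y 4 (ch (G.bv P m) - P (oc m) K) ε (tb T.F) :=
  (jet_bv h hr hε hK F Q k hγ (Tb.tab h1).1 m).le hε (Tb.tab h1).2

end Gr

end Pool.Agent.MP_48470b_gt.Bl
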