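import Pool.Agent.MP_48470b_gt.Bl.Grid

/-! Blending of local data in the chart. -/

set_option autoImplicit false

open Finset Function
open scoped Topology

noncomputable section

namespace Pool.Agent.MP_48470b_gt.Bl

open Dic

/-- component indices -/
abbrev O3 := Option (Fin 3)

/-- box indices -/
abbrev Bx := Fin 3 → ℕ

/-- exact symmetries of the data on the sorted boxes -/
structure Dat (n : ℕ) (P : O3 → Bx → C3) : Prop where
  s01 : ∀ o M, Monotone M → M 2 < n → M 0 = M 1 → ∀ y : P3,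
    P o M (y ∘ Equiv.swap 0 1) = P (o.map (Equiv.swap 0 1)) M y
  s12 : ∀ o M, Monotone M → M 2 < n → M 1 = M 2 → ∀ y : P3,
    P o M (y ∘ Equiv.swap 1 2) = P (o.map (Equiv.swap 1 2)) M y
  par : ∀ o M a, Monotone M → M 2 < n → M a = 0 → ∀ y : P3,
    P o M (update y a (-y a)) = (if o = some a then -1 else 1) * P o M y

/-- the data on all boxes -/
def ph (P : O3 → Bx → C3) (o : O3) (L : Bx) : C3 :=
  sub (fun a => xi (Tuple.sort L a)) (P (o.map (Tuple.sort L).symm) (L ∘ Tuple.sort L))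

/-- the sign of a component -/
def sg (e : Fin 3 → ℝ) (o : O3) : ℝ := o.elim 1 e

variable {n : ℕ} {P : O3 → Bx → C3} {o : O3} {L M K : Bx} {y : P3}

theorem Dat.sym (h : Dat n P) (hM : Monotone M) (hn : M 2 < n) (ρ : Equiv.Perm (Fin 3))
    (e : M ∘ ρ = M) (o : O3) (y : P3) : P o M (y ∘ ρ) = P (o.map ρ) M y := by
  have c : ∀ σ τ : Equiv.Perm (Fin 3), (∀ o y, P o M (y ∘ σ) = P (o.map σ) M y) →
      (∀ o y, P o M (y ∘ τ) = P (o.map τ) M y) →
      ∀ o y, P o M (y ∘ (σ * τ :)) = P (o.map (σ * τ :)) M y := fun σ τ p q o y => by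
    rw [Equiv.Perm.coe_mul, ← Option.map_map, ← p, ← q]
    rfl
  have m1 : M 0 ≤ M 1 := hM (by decide)
  have m2 : M 1 ≤ M 2 := hM (by decide)
  have e0 := congrFun e 0
  have e1 := congrFun e 1
  have a := fun p o => h.s01 o M hM hn p
  have b := fun p o => h.s12 o M hM hn p
  obtain rfl | rfl | rfl | rfl | rfl | rfl : ρ = 1 ∨ ρ = .swap 0 1 ∨ ρ = .swap 1 2 ∨
      ρ = .swap 0 1 * .swap 1 2 ∨ ρ = .swap 1 2 * .swap 0 1 ∨
      ρ = .swap 0 1 * .swap 1 2 * .swap 0 1 := by clear * -; revert ρ; decide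
  · simp
  · exact a e0.symm o y
  · exact b e1.symm o y
  · exact c _ _ (a e0.symm) (b e1.symm) o y
  · have : M 2 = M 0 := e0
    exact c _ _ (b (by omega)) (a (by omega)) o y
  · have : M 2 = M 0 := e0
    exact c _ _ (c _ _ (a (by omega)) (b (by omega))) (a (by omega)) o y

theorem Dat.ph_eq (h : Dat n P) (hL : ∀ a, L a < n) (ρ : Equiv.Perm (Fin 3))
    (e : Monotone (L ∘ ρ)) (o : O3) (y : P3) :
    ph P o L y = P (o.map ρ.symm) (L ∘ ρ) (y ∘ ρ) := by
  have u := Tuple.unique_monotone e (Tuple.monotone_sort L)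
  have := h.sym (Tuple.monotone_sort L) (hL _) ((Tuple.sort L)⁻¹ * ρ)
    (by rw [← u]; ext a; simp [u]) (o.map ρ.symm) (y ∘ Tuple.sort L)
  rw [show (y ∘ Tuple.sort L) ∘ ((Tuple.sort L)⁻¹ * ρ :) = y ∘ ρ by ext a; simp,
    show (o.map ρ.symm).map ((Tuple.sort L)⁻¹ * ρ :) = o.map (Tuple.sort L).symm by
      cases o <;> simp [Equiv.Perm.inv_def]] at this
  rw [u, this]
  rfl

theorem Dat.ph_perm (h : Dat n P) (hL : ∀ a, L a < n) (ρ : Equiv.Perm (Fin 3)) (o : O3) (y : P3) :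
    ph P o (L ∘ ρ) (y ∘ ρ) = ph P (o.map ρ) L y := by
  rw [h.ph_eq hL (ρ * Tuple.sort (L ∘ ρ)) (Tuple.monotone_sort (L ∘ ρ)),
    show (o.map ρ).map (ρ * Tuple.sort (L ∘ ρ)).symm = o.map (Tuple.sort (L ∘ ρ)).symm by
      cases o <;> simp [← Equiv.Perm.inv_def, ← Equiv.Perm.mul_apply]]
  rfl

theorem Dat.ph_par (h : Dat n P) (hL : ∀ a, L a < n) {a : Fin 3} (e : L a = 0) (o : O3) (y : P3) :
    ph P o L (update y a (-y a)) = (if o = some a then -1 else 1) * ph P o L y := by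
  have := h.par (o.map (Tuple.sort L).symm) _ ((Tuple.sort L).symm a) (Tuple.monotone_sort L)
    (hL _) (by simpa using e) (y ∘ Tuple.sort L)
  rw [h.ph_eq hL _ (Tuple.monotone_sort L), update_comp_equiv, h.ph_eq hL _ (Tuple.monotone_sort L)]
  cases o <;> simpa using this

theorem Dat.ph_sgn (h : Dat n P) (hL : ∀ a, L a < n) {e : Fin 3 → ℝ}
    (he : ∀ a, e a = 1 ∨ e a = -1 ∧ L a = 0) (o : O3) (y : P3) :
    sg e o * ph P o L (e * y) = ph P o L y := by
  suffices ∀ (s : Finset (Fin 3)) (e : Fin 3 → ℝ), (∀ a, e a = 1 ∨ a ∈ s ∧ e a = -1 ∧ L a = 0) →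
      sg e o * ph P o L (e * y) = ph P o L y from this univ e fun a => by simpa using he a
  intro s
  induction s using Finset.induction_on with
  | empty =>
    intro e he
    obtain rfl : e = 1 := funext fun a => by simpa using he a
    cases o <;> simp [sg]
  | insert a s _ ih =>
    intro e he
    have := ih (update e a 1) fun b => by
      rcases eq_or_ne b a with rfl | p
      · simp
      · simpa [p] using he b
    rcases he a with p | ⟨-, p, q⟩
    · rwa [update_eq_self_iff.2 p.symm] at this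
    · rw [show e * y = update (update e a 1 * y) a (-(update e a 1 * y) a) from funext fun b => by
        rcases eq_or_ne b a with rfl | r <;> simp [*], h.ph_par hL q, ← this, ← mul_assoc]
      congr 1
      rcases o with _ | b
      · simp [sg]
      · rcases eq_or_ne b a with rfl | r <;> simp [sg, *]

namespace Gr

variable (G : Gr)

/-- all boxes -/
abbrev bx : Finset Bx := Fintype.piFinset fun _ => range G.n

/-- the blend on the positive octant -/
def U0 (c : ℝ) (P : O3 → Bx → C3) (o : O3) : C3 :=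
  ∑ L ∈ G.bx, tp (fun a => G.ps c (L a)) 0 * ph P o L

/-- the blend -/
def U (P : O3 → Bx → C3) (o : O3) : C3 :=
  ∑ e ∈ Fintype.piFinset fun _ : Fin 3 => ({1, -1} : Finset ℝ),
    sg e o • sub (fun a => e a • xi a) (G.U0 (1 / 2) P o)

variable {G}

theorem bx_lt (h : L ∈ G.bx) (a : Fin 3) : L a < G.n := mem_range.1 (Fintype.mem_piFinset.1 h a)

theorem U_apply (y : P3) : G.U P o y = ∑ e ∈ Fintype.piFinset fun _ : Fin 3 => ({1, -1} : Finset ℝ),
    sg e o * G.U0 (1 / 2) P o (e * y) := by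
  simp only [U, C3.sum_apply]
  rfl

theorem U_sgn {e : Fin 3 → ℝ} (he : ∀ a, e a = 1 ∨ e a = -1) (y : P3) :
    G.U P o (e * y) = sg e o * G.U P o y := by
  have q : e * e = 1 := funext fun a => by rcases he a with p | p <;> simp [p]
  have m : ∀ f ∈ Fintype.piFinset fun _ : Fin 3 => ({1, -1} : Finset ℝ),
      f * e ∈ Fintype.piFinset fun _ : Fin 3 => ({1, -1} : Finset ℝ) := fun f hf =>
    Fintype.mem_piFinset.2 fun a => by
      have := Fintype.mem_piFinset.1 hf a
      simp only [mem_insert, mem_singleton, Pi.mul_apply] at this ⊢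
      rcases he a with p | p <;> rcases this with r | r <;> simp [p, r]
  rw [U_apply, U_apply, mul_sum]
  refine sum_nbij' (· * e) (· * e) m m (fun f _ => by rw [mul_assoc, q, mul_one])
    (fun f _ => by rw [mul_assoc, q, mul_one]) fun f _ => ?_
  rw [← mul_assoc, ← mul_assoc]
  congr 1
  rcases o with _ | b
  · simp [sg]
  · rcases he b with p | p <;> simp [sg, p]

theorem U0_perm (h : Dat G.n P) (c : ℝ) (ρ : Equiv.Perm (Fin 3)) (y : P3) :
    G.U0 c P o (y ∘ ρ) = G.U0 c P (o.map ρ) y := by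
  simp only [U0, C3.sum_apply, C3.mul_apply, tp_apply]
  refine (sum_nbij' (· ∘ ρ) (· ∘ ρ.symm) (fun f hf => ?_) (fun f hf => ?_) (fun f _ => ?_)
    (fun f _ => ?_) fun L hL => ?_).symm
  · exact Fintype.mem_piFinset.2 fun a => Fintype.mem_piFinset.1 hf _
  · exact Fintype.mem_piFinset.2 fun a => Fintype.mem_piFinset.1 hf _
  · ext a; simp
  · ext a; simp
  · rw [h.ph_perm (bx_lt hL), ← Equiv.prod_comp ρ]
    rfl

theorem U_perm (h : Dat G.n P) (ρ : Equiv.Perm (Fin 3)) (y : P3) :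
    G.U P o (y ∘ ρ) = G.U P (o.map ρ) y := by
  rw [U_apply, U_apply]
  refine (sum_nbij' (· ∘ ρ) (· ∘ ρ.symm) (fun f hf => ?_) (fun f hf => ?_) (fun f _ => ?_)
    (fun f _ => ?_) fun e _ => ?_).symm
  · exact Fintype.mem_piFinset.2 fun a => Fintype.mem_piFinset.1 hf _
  · exact Fintype.mem_piFinset.2 fun a => Fintype.mem_piFinset.1 hf _
  · ext a; simp
  · ext a; simp
  · rw [← U0_perm h]
    cases o <;> rfl

theorem U_pos (h : Dat G.n P) (hy : ∀ a, -(G.d : ℝ) ≤ y a) : G.U P o y = G.U0 1 P o y := by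
  rw [U_apply]
  simp only [U0, C3.sum_apply, C3.mul_apply, tp_apply, mul_sum, Pi.zero_apply]
  rw [sum_comm]
  refine sum_congr rfl fun L hL => ?_
  rw [← prod_congr rfl fun a _ => G.ps_even (hy a) (bx_lt hL a), prod_congr rfl fun a _ =>
    show _ = ∑ e ∈ ({1, -1} : Finset ℝ), (G.ps (1 / 2) (L a)).f 0 (e * y a) by
      rw [sum_pair (by norm_num), one_mul, neg_one_mul], prod_univ_sum, sum_mul]
  refine sum_congr rfl fun e he => ?_
  by_cases p : ∀ a, e a = 1 ∨ e a = -1 ∧ L a = 0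
  · rw [← h.ph_sgn (bx_lt hL) p o y, mul_left_comm]
    rfl
  · push Not at p
    obtain ⟨a, p, q⟩ := p
    have r : e a = -1 := by simpa [p] using Fintype.mem_piFinset.1 he a
    have : ∏ a, (G.ps (1 / 2) (L a)).f 0 (e a * y a) = 0 :=
      prod_eq_zero (mem_univ a) (by
        rw [r, neg_one_mul]; exact G.ps_neg (hy a) (bx_lt hL a) (q r))
    simp only [Pi.mul_apply, this, zero_mul, mul_zero]

theorem U_zero (h : Dat G.n P) {a : Fin 3} (ha : 1 + G.d ≤ y a) : G.U P o y = 0 := by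
  have s : ∀ b, (if 0 ≤ y b then (1 : ℝ) else -1) = 1 ∨ (if 0 ≤ y b then (1 : ℝ) else -1) = -1 :=
    fun b => by split_ifs <;> simp
  have e : y = (fun b => if 0 ≤ y b then (1 : ℝ) else -1) * fun b => |y b| := funext fun b => by
    simp only [Pi.mul_apply]
    split_ifs with p
    · simp [abs_of_nonneg p]
    · simp [abs_of_neg (not_le.1 p)]
  rw [e, U_sgn s, U_pos h fun b => by linarith [abs_nonneg (y b), G.dp]]
  simp only [U0, C3.sum_apply, C3.mul_apply, tp_apply]
  rw [sum_eq_zero fun L hL => ?_, mul_zero]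
  exact mul_eq_zero_of_left (prod_eq_zero (mem_univ a) (G.ps_zero _ (abs_nonneg _) (bx_lt hL a)
    (.inr (by linarith [G.le (Nat.succ_le_of_lt (bx_lt hL a)) le_rfl, G.t1, le_abs_self (y a)])))) _

variable (G)

/-- the cut-off -/
def Th : C3 := G.U (fun o _ => o.elim 1 0) none

theorem dat1 : Dat G.n fun o _ => o.elim (1 : C3) 0 :=
  ⟨fun o _ _ _ _ _ => by cases o <;> rfl, fun o _ _ _ _ _ => by cases o <;> rfl,
    fun o _ _ _ _ _ _ => by cases o <;> simp⟩

theorem Th_sum (y : P3) : ∑ L ∈ G.bx, tp (fun a => G.ps 1 (L a)) 0 y = tp (fun _ => G.th) 0 y := by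
  simp only [tp_apply, Pi.zero_apply, ← ps_sum]
  rw [prod_univ_sum]

theorem Th_pos (hy : ∀ a, -(G.d : ℝ) ≤ y a) : G.Th y = tp (fun _ => G.th) 0 y := by
  rw [Th, U_pos G.dat1 hy, ← Th_sum, U0, C3.sum_apply]
  exact sum_congr rfl fun L _ => mul_one _

theorem Th_one (hy : ∀ a, |y a| ≤ 1) : G.Th y = 1 := by
  have s : ∀ b, (if 0 ≤ y b then (1 : ℝ) else -1) = 1 ∨ (if 0 ≤ y b then (1 : ℝ) else -1) = -1 :=
    fun b => by split_ifs <;> simp
  have e : y = (fun b => if 0 ≤ y b then (1 : ℝ) else -1) * fun b => |y b| := funext fun b => by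
    simp only [Pi.mul_apply]
    split_ifs with p
    · simp [abs_of_nonneg p]
    · simp [abs_of_neg (not_le.1 p)]
  rw [e, Th, U_sgn s, ← Th, G.Th_pos fun b => by linarith [abs_nonneg (y b), G.dp]]
  simp [sg, G.th_lo 0 (hy _)]

theorem near0 (hy : ∀ a, 0 ≤ y a) : ∀ᶠ x in 𝓝 y, ∀ a, -(G.d : ℝ) ≤ x a :=
  Filter.eventually_all.2 fun a => (near (by linarith [hy a, G.dp])).mono fun _ => le_of_lt

theorem Th_loc (hy : ∀ a, 0 ≤ y a) : Loc y G.Th (tp (fun _ => G.th) 0) :=
  (G.near0 hy).mono fun _ => G.Th_pos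

/-- `y` lies in the enlarged box `L` -/
def In (y : P3) (L : Bx) : Prop :=
  ∀ a, L a < G.n ∧ G.t (L a) - G.d ≤ y a ∧ y a ≤ G.t (L a + 1) + G.d

/-- the mismatch on the faces near the box `K` -/
def Face (P : O3 → Bx → C3) (K : Bx) (r : ℚ) (ε : ℝ) : Prop :=
  ∀ M a o z, Monotone M → Monotone (update M a (M a + 1)) →
    (∀ i, M i ≤ K i + 1 ∧ K i ≤ M i + 1) → M a ≤ K a → (∀ i, 0 ≤ z i) → G.In z M →
    G.In z (update M a (M a + 1)) → tn r z (P o (update M a (M a + 1)) - P o M) ≤ ε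

variable {G} {r : ℚ} {ε : ℝ}

theorem In.near (h : G.In y L) (k : G.In y K) (a : Fin 3) : L a ≤ K a + 1 := by
  by_contra p
  linarith [G.lt (not_le.1 p) (h a).1.le, (h a).2.1, (k a).2.2]

theorem near_sort (hM : Monotone M) (hK : Monotone K) (ρ : Equiv.Perm (Fin 3))
    (h : ∀ i, M i ≤ K (ρ i) + 1 ∧ K (ρ i) ≤ M i + 1) (i : Fin 3) :
    M i ≤ K i + 1 ∧ K i ≤ M i + 1 := by
  have m1 : M 0 ≤ M 1 := hM (by decide)
  have m2 : M 1 ≤ M 2 := hM (by decide)
  have k1 : K 0 ≤ K 1 := hK (by decide)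
  have k2 : K 1 ≤ K 2 := hK (by decide)
  have h0 := h 0
  have h1 := h 1
  have h2 := h 2
  have : ∀ i, i = 0 ∨ i = 1 ∨ i = (2 : Fin 3) := by decide
  obtain p | p | p | p | p | p : ρ 0 = 0 ∧ ρ 1 = 1 ∧ ρ 2 = 2 ∨ ρ 0 = 0 ∧ ρ 1 = 2 ∧ ρ 2 = 1 ∨
      ρ 0 = 1 ∧ ρ 1 = 0 ∧ ρ 2 = 2 ∨ ρ 0 = 1 ∧ ρ 1 = 2 ∧ ρ 2 = 0 ∨ ρ 0 = 2 ∧ ρ 1 = 0 ∧ ρ 2 = 1 ∨
      ρ 0 = 2 ∧ ρ 1 = 1 ∧ ρ 2 = 0 := by clear * -; revert ρ; decide
  all_goals
    rw [p.1] at h0
    rw [p.2.1] at h1
    rw [p.2.2] at h2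
    rcases this i with rfl | rfl | rfl <;> omega

theorem face (h : Dat G.n P) (hr : 0 < r) (hK : Monotone K) (F : G.Face P K r ε)
    (hy : ∀ a, 0 ≤ y a) (k : G.In y K) {a : Fin 3} (p : G.In y L)
    (q : G.In y (update L a (L a + 1))) :
    Mj y 4 (ph P o (update L a (L a + 1)) - ph P o L) ε fun J => cq r J.length := by
  obtain ⟨ρ, m⟩ : ∃ ρ : Equiv.Perm (Fin 3),
    Monotone ((fun i => 2 * L i + if i = a then 1 else 0) ∘ ρ) := ⟨_, Tuple.monotone_sort _⟩
  have m1 : Monotone (L ∘ ρ) := fun i j l => by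
    have := m l
    simp only [comp_apply] at this ⊢
    split_ifs at this <;> omega
  have m2 : Monotone (update L a (L a + 1) ∘ ρ) := fun i j l => by
    have := m l
    simp only [comp_apply, update_apply] at this ⊢
    split_ifs at this ⊢ <;> simp_all
    omega
  have e : update L a (L a + 1) ∘ ρ = update (L ∘ ρ) (ρ.symm a) ((L ∘ ρ) (ρ.symm a) + 1) := by
    simp [update_comp_equiv]
  have := F (L ∘ ρ) (ρ.symm a) (o.map ρ.symm) (y ∘ ρ) m1 (e ▸ m2)
    (near_sort m1 hK ρ fun i => ⟨p.near k _, k.near p _⟩) (by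
      have := (near_sort m2 hK ρ (fun i => ⟨q.near k _, k.near q _⟩) (ρ.symm a)).1
      simpa using this) (fun i => hy _) (fun i => p _) (e ▸ fun i => q _)
  rw [← e] at this
  convert (Mj_of_tn hr this).perm ρ using 1
  ext x
  rw [C3.sub_apply, h.ph_eq (fun i => (q i).1) ρ m2, h.ph_eq (fun i => (p i).1) ρ m1]
  rfl

theorem cq_nonneg (hr : 0 < r) (k : ℕ) : 0 ≤ cq r k := by
  unfold cq
  positivity

theorem step (h : Dat G.n P) (hr : 0 < r) (hε : 0 ≤ ε) (hK : Monotone K) (F : G.Face P K r ε)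
    (hy : ∀ a, 0 ≤ y a) (k : G.In y K) (a : Fin 3) (v : ℕ) (p : G.In y L)
    (q : G.In y (update L a v)) :
    Mj y 4 (ph P o (update L a v) - ph P o L) ε fun J => cq r J.length := by
  have a1 := q.near p a
  have a2 := p.near q a
  rw [update_self] at a1 a2
  obtain e | e | e : v = L a + 1 ∨ v = L a ∨ v + 1 = L a := by omega
  · subst e
    exact face h hr hK F hy k p q
  · intro J _
    rw [e, update_eq_self, sub_self, map_zero, C3.zero_apply, abs_zero]
    exact mul_nonneg hε (by exact_mod_cast cq_nonneg hr _)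
  · have u : update (update L a v) a (update L a v a + 1) = L := by simp [e]
    have := (face (o := o) h hr hK F hy k q (u.symm ▸ p)).neg
    rwa [u, neg_sub] at this

theorem tel (s : Finset ℕ) (a b c : ℕ → ℝ) (p : ℕ → ℕ → ℕ → ℝ) {A B C : ℝ} {u v w : ℕ}
    (hv : v ∈ s) (hw : w ∈ s) (hA : ∑ i ∈ s, a i = A) (hB : ∑ i ∈ s, b i = B)
    (hC : ∑ i ∈ s, c i = C) :
    ∑ i ∈ s, ∑ j ∈ s, ∑ k ∈ s, a i * b j * c k * p i j k - A * B * C * p u v w =
      ∑ i ∈ s, ∑ j ∈ s, ∑ k ∈ s, (if i = u then 0 else a i) * (if j = v then B else 0) *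
        (if k = w then C else 0) * (p i j k - p u j k) +
      ∑ i ∈ s, ∑ j ∈ s, ∑ k ∈ s, a i * (if j = v then 0 else b j) * (if k = w then C else 0) *
        (p i j k - p i v k) +
      ∑ i ∈ s, ∑ j ∈ s, ∑ k ∈ s, a i * b j * (if k = w then 0 else c k) * (p i j k - p i j w) := by
  have e0 : ∀ i ∈ s, ∑ j ∈ s, ∑ k ∈ s, (if i = u then 0 else a i) * (if j = v then B else 0) *
      (if k = w then C else 0) * (p i j k - p u j k) = a i * (B * C * (p i v w - p u v w)) :=
    fun i _ => by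
      rw [sum_eq_single_of_mem v hv fun j _ q => by simp [q],
        sum_eq_single_of_mem w hw fun j _ q => by simp [q]]
      split_ifs <;> simp_all
      ring
  have e1 : ∀ i ∈ s, ∑ j ∈ s, ∑ k ∈ s, a i * (if j = v then 0 else b j) *
      (if k = w then C else 0) * (p i j k - p i v k) =
      a i * C * ∑ j ∈ s, b j * p i j w - a i * (B * C * p i v w) := fun i _ => by
    rw [← hB, sum_mul, sum_mul, mul_sum, mul_sum, ← sum_sub_distrib]
    refine sum_congr rfl fun j _ => ?_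
    rw [sum_eq_single_of_mem w hw fun j _ q => by simp [q]]
    split_ifs <;> simp_all <;> ring
  have e2 : ∀ i ∈ s, ∑ j ∈ s, ∑ k ∈ s, a i * b j * (if k = w then 0 else c k) *
      (p i j k - p i j w) = ∑ j ∈ s, ∑ k ∈ s, a i * b j * c k * p i j k -
      a i * C * ∑ j ∈ s, b j * p i j w := fun i _ => by
    rw [mul_sum, ← sum_sub_distrib]
    refine sum_congr rfl fun j _ => ?_
    rw [← hC, mul_sum, sum_mul, ← sum_sub_distrib]
    refine sum_congr rfl fun k _ => ?_
    split_ifs <;> simp_all <;> ring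
  rw [sum_congr rfl e0, sum_congr rfl e1, sum_congr rfl e2, ← hA, mul_assoc, mul_assoc, sum_mul,
    ← sum_sub_distrib, ← sum_add_distrib, ← sum_add_distrib]
  exact sum_congr rfl fun i _ => by ring

theorem sum_bx (f : Bx → ℝ) : ∑ L ∈ G.bx, f L =
    ∑ i ∈ range G.n, ∑ j ∈ range G.n, ∑ k ∈ range G.n, f ![i, j, k] := by
  rw [← sum_product', ← sum_product']
  refine sum_nbij' (fun L => ((L 0, L 1), L 2)) (fun q => ![q.1.1, q.1.2, q.2]) (fun L hL => ?_)
    (fun q hq => ?_) (fun L _ => ?_) (fun q _ => rfl) fun L _ => congrArg f ?_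
  · simpa using ⟨⟨bx_lt hL 0, bx_lt hL 1⟩, bx_lt hL 2⟩
  · simp only [mem_product] at hq
    refine Fintype.mem_piFinset.2 fun a => ?_
    fin_cases a
    exacts [hq.1.1, hq.1.2, hq.2]
  all_goals
    ext a
    fin_cases a <;> rfl

theorem fam_tp' {F : Fin 3 → ℕ → Tw} {m : ℕ} {S : Fin 3 → ℕ → ℚ}
    (h : ∀ a k, k ≤ m → ∑ l ∈ range G.n, |(F a l).f k (y a)| ≤ S a k) (J : Wr)
    (hJ : J.length ≤ m) : ∑ L ∈ G.bx, |Wd J (tp (fun a => F a (L a)) 0) y| ≤ ten S J := by
  simp only [Wd_tp, tp_apply, abs_prod, Pi.zero_apply, zero_add]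
  rw [← prod_univ_sum (fun _ : Fin 3 => range G.n) fun a l => |(F a l).f (J.count a) (y a)|]
  refine (prod_le_prod (fun a _ => sum_nonneg fun _ _ => abs_nonneg _) fun a _ =>
    h a _ (List.count_le_length.trans hJ)).trans_eq ?_
  simp [ten, Fin.prod_univ_three]

/-- the weights of the step `s` of the chain -/
def fa (G : Gr) (K : Bx) (s a : Fin 3) (l : ℕ) : Tw :=
  if a < s then G.ps 1 l else if a = s then if l = K a then cst 0 else G.ps 1 l
  else if l = K a then G.th else cst 0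

/-- their majorant -/
def fS (d : ℚ) (A Z : Fin 3 → Bool) (s : Fin 3) : Wr → ℚ :=
  ten fun a => if a < s then sS d (A a) else if a = s then sN d (Z a) else sT d (A a)

/-- the majorant of the error in a chart -/
def eM (d r : ℚ) (A Z : Fin 3 → Bool) (J : Wr) : ℚ :=
  conv (fS d A Z 0) (fun J => cq r J.length) J + conv (fS d A Z 1) (fun J => cq r J.length) J +
    conv (fS d A Z 2) (fun J => cq r J.length) J

theorem inchart (h : Dat G.n P) (hr : 0 < r) (hε : 0 ≤ ε) (hK : Monotone K) (F : G.Face P K r ε)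
    (hy : ∀ a, 0 ≤ y a) (k : G.In y K) {A Z : Fin 3 → Bool} (hA : ∀ a, A a = false → y a ≤ 1)
    (hZ : ∀ a, Z a = true → K a + 1 = G.n ∧ 1 - G.d ≤ y a) :
    Mj y 4 (G.U P o - G.Th * P o K) ε (eM G.d r A Z) := by
  have m : ∀ s, Mj y 4 (∑ L ∈ G.bx, tp (fun a => G.fa K s a (L a)) 0 *
      (ph P o L - ph P o (update L s (K s)))) ε (conv (fS G.d A Z s) fun J => cq r J.length) :=
    fun s => by
    refine fam G.bx hε (fun J => cq_nonneg hr _) (fam_tp' fun a j hj => ?_) fun L hL => ?_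
    · unfold fa
      split_ifs
      · exact G.ps_fam (hA a) j hj
      · exact G.ps_nb (k a).1 (hy a) (k a).2.1 (k a).2.2 (hZ a) j hj
      · refine one_le (K a) (fun l _ e => by simp [e, cst]) (fun _ => ?_)
          ((abs_nonneg _).trans (G.th_le (hA a) j hj))
        simpa using G.th_le (hA a) j hj
    · by_cases p : G.In y L
      · refine .inr ?_
        have := (step (o := o) h hr hε hK F hy k s (K s) p fun b => by
          rcases eq_or_ne b s with rfl | e
          · simpa using k b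
          · simpa [e] using p b).neg
        rwa [neg_sub] at this
      · refine .inl fun J _ => ?_
        obtain ⟨a, p⟩ := not_forall.1 p
        have z := fun j => G.ps_zero j (hy a) (bx_lt hL a) (by
          by_contra q
          push Not at q
          exact p ⟨bx_lt hL a, q.1.le, q.2.le⟩)
        have e : L a ≠ K a := fun e => p (e ▸ k a)
        rw [Wd_tp, tp_apply, prod_eq_zero (mem_univ a) (by
          unfold fa
          split_ifs <;> simp [z, cst])]
        simp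
  refine (((m 0).add (m 1)).add (m 2)).loc ((G.near0 hy).mono fun x hx => ?_)
  have e : P o K x = ph P o ![K 0, K 1, K 2] x := by
    rw [show ![K 0, K 1, K 2] = K from funext fun a => by fin_cases a <;> rfl]
    simpa [← Equiv.Perm.inv_def] using (h.ph_eq (fun i => (k i).1) 1 hK o x).symm
  have u0 : ∀ i j l v : ℕ, update ![i, j, l] 0 v = ![v, j, l] := fun _ _ _ _ =>
    funext fun a => by fin_cases a <;> rfl
  have u1 : ∀ i j l v : ℕ, update ![i, j, l] 1 v = ![i, v, l] := fun _ _ _ _ =>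
    funext fun a => by fin_cases a <;> rfl
  have u2 : ∀ i j l v : ℕ, update ![i, j, l] 2 v = ![i, j, v] := fun _ _ _ _ =>
    funext fun a => by fin_cases a <;> rfl
  have := tel (range G.n) _ _ _ (fun i j l => ph P o ![i, j, l] x) (u := K 0)
    (mem_range.2 (k 1).1) (mem_range.2 (k 2).1) (G.ps_sum (x 0)) (G.ps_sum (x 1)) (G.ps_sum (x 2))
  simp only [C3.sub_apply, C3.mul_apply, C3.add_apply, C3.sum_apply, U_pos h hx, G.Th_pos hx, U0,
    e, sum_bx, tp_apply, Fin.prod_univ_three, u0, u1, u2]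
  have i1 : ∀ (p : Prop) [Decidable p] (F : Tw) (t : ℝ),
      (if p then cst 0 else F).f 0 t = if p then 0 else F.f 0 t := fun p _ F t => by
    split_ifs <;> rfl
  have i2 : ∀ (p : Prop) [Decidable p] (F : Tw) (t : ℝ),
      (if p then F else cst 0).f 0 t = if p then F.f 0 t else 0 := fun p _ F t => by
    split_ifs <;> rfl
  simp only [← i1, ← i2] at this
  exact this

end Gr

end Pool.Agent.MP_48470b_gt.Bl
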