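import Pool.Agent.MP_48470b_gt.Bl.Jet
import Pool.Agent.MP_48470b_gt.TM.Defs

/-! The Taylor seminorm as a semantics for the polynomial models. -/

set_option autoImplicit false

noncomputable section

namespace Pool.Agent.MP_48470b_gt.Bl

open Dic

/-- the Taylor seminorm, bundled -/
def tnS (r : ℝ) (hr : 0 ≤ r) (y : P3) : Seminorm ℝ C3 :=
  Seminorm.of (tn r y) (tn_add hr) tn_smul

@[simp] theorem tnS_apply (r : ℝ) (hr : 0 ≤ r) (y : P3) (u : C3) : tnS r hr y u = tn r y u := rfl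

theorem tn_sem {r : ℝ} (hr : 0 ≤ r) {y : P3} {X : Fin 3 → C3} (h : ∀ i, tn r y (X i) ≤ 1) :
    TM.Sem X (tnS r hr y) := ⟨tn_mul hr, tn_one.le, h⟩

theorem tn_sem' {r : ℝ} (hr : 0 ≤ r) {y : P3} (a : Fin 3 → Fin 3) (p c : Fin 3 → ℝ)
    (h : ∀ i, |p i * y (a i) - c i| + r * |p i| ≤ 1) :
    TM.Sem (fun i => p i • xi (a i) - algebraMap ℝ C3 (c i)) (tnS r hr y) :=
  tn_sem hr fun i => (tn_xi _ _ _).trans_le (h i)

theorem Wd_foldr (J : Wr) (u : C3) : J.foldr (fun a v => pd a v) u = Wd J.reverse u := by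
  rw [← List.foldl_reverse]
  generalize J.reverse = L
  induction L generalizing u with
  | nil => rfl
  | cons i L ih => exact ih _

theorem Mj.foldr {y : P3} {m : ℕ} {u : C3} {e : ℝ} {q : ℕ → ℚ}
    (h : Mj y m u e fun J => q J.length) (J : Wr) (hJ : J.length ≤ m) :
    |evc y (J.foldr (fun a v => Dic.pd a v) u)| ≤ e * q J.length := by
  simpa [Wd_foldr] using h J.reverse (by simpa using hJ)

end Pool.Agent.MP_48470b_gt.Bl
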