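import Pool.Agent.MP_48470b_gt.Bl.Num
import Pool.Agent.MP_48470b_gt.Bl.Num2
import Pool.Agent.MP_48470b_gt.Bl.Sem
import Pool.Agent.MP_48470b_gt.Top.Box

/-! The blend on a grid with integer break points over 512. -/

set_option autoImplicit false

open Finset Function
open scoped NNReal

noncomputable section

namespace Pool.Agent.MP_48470b_gt.Bl

open Dic Sph Pool.Agent.MP_48470b_gt.Top Pool.Agent.MP48470b.An
open Pool.Agent.MP_48470b_gt.Gap (SP)

/-- the bound for `Dic.nu` in the frame `c i • pd (σ i)`, where `t i = lam * c i` -/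
def nw (t : Fin 3 → ℚ) (σ : Fin 3 → Fin 3) : ℕ → (Wr → ℚ) → ℚ
  | 0, b => b []
  | k + 1, b => nw t σ k b + (t 0 * nw t σ k (fun L => b (σ 0 :: L)) +
      t 1 * nw t σ k (fun L => b (σ 1 :: L)) + t 2 * nw t σ k fun L => b (σ 2 :: L))

theorem Mj.nu {y : P3} {e : ℝ} {δ : I3 → Derivation ℝ C3 C3} {c : Fin 3 → ℝ} {σ : Fin 3 → Fin 3}
    (hδ : ∀ i u, δ i u = c i • Dic.pd (σ i) u) {lam : ℝ≥0} {t : Fin 3 → ℚ}
    (ht : ∀ i, lam * |c i| ≤ t i) {k : ℕ} {u : C3} {b : Wr → ℚ} (h : Mj y k u e b) :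
    nu (evc y) δ lam k u ≤ e * nw t σ k b := by
  induction k generalizing u b with
  | zero => exact h [] le_rfl
  | succ k ih =>
    have p := fun i => mul_le_mul (ht i) (ih (h.pd (σ i))) (apply_nonneg _ _)
      ((mul_nonneg lam.coe_nonneg (abs_nonneg _)).trans (ht i))
    rw [nu_succ, nw]
    simp only [hδ, map_smul_eq_mul, Fin.sum_univ_three, Real.norm_eq_abs]
    push_cast
    linarith [ih h.pred, p 0, p 1, p 2]

theorem Mj.le_ord {y : P3} {e : ℝ} {k m : ℕ} {u : C3} {b : Wr → ℚ} (h : Mj y m u e b)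
    (hk : k ≤ m) : Mj y k u e b := fun J hJ => h J (hJ.trans hk)

/-- grids without narrow boxes -/
structure Gd (n : ℕ) (br : ℕ → ℕ) : Prop where
  g : Gap.Grid n 512 br
  w : ∀ i < n, br i + 1 < br (i + 1)

/-- the box with index `M`, enlarged by half a unit -/
def InE (br : ℕ → ℕ) (M : Bx) (z : P3) : Prop :=
  ∀ a, (br (M a) : ℝ) - 1 / 2 ≤ 512 * z a ∧ 512 * z a ≤ br (M a + 1) + 1 / 2

/-- the next box in the direction `a` -/
abbrev nx (M : Bx) (a : Fin 3) : Bx := update M a (M a + 1)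

/-- the mismatch on the face between `M` and `nx M a` -/
def FaceB (br : ℕ → ℕ) (P : O3 → Bx → C3) (M : Bx) (a : Fin 3) (ε : ℝ) : Prop :=
  ∀ o z, (∀ i, 0 ≤ z i) → InE br M z → InE br (nx M a) z →
    tn (1 / 1024) z (P o (nx M a) - P o M) ≤ ε

/-- the mismatch on the boundary of the chart -/
def ProjB (br : ℕ → ℕ) (K : Bx) (p q : C3) (ε : ℝ) : Prop :=
  ∀ z, InB 512 br K z → 1024 ≤ 1025 * z 2 → tn (1 / 1024) z (sub (sw 2) p - q) ≤ ε

/-- the table for the box `K` -/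
def cK (n : ℕ) (br : ℕ → ℕ) (K : Bx) : ℕ :=
  cF n (K 0) (K 1) (K 2) (br (K 0 + 1)) (br (K 1 + 1))

theorem tb_en (N : ℕ) (J : Wr) : tb N J = en N (ix J) / 16 := tb_eq N J

/-- the largest mismatch near the box `K` -/
def nb (n : ℕ) (ef : Bx → Fin 3 → ℕ) (K : Bx) : ℕ :=
  (ws 3).foldr (fun J m => [0, 1, 2].foldr (fun a m =>
    let M : Bx := fun i => K i + (J.getD i 0).val - 1
    if Srt n M ∧ Srt n (nx M a) ∧ M a ≤ K a then max (ef M a) m else m) m) 0

theorem foldr_le {α : Type*} {f : α → ℕ → ℕ} (h : ∀ x m, m ≤ f x m) {l : List α} {x : α}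
    (hx : x ∈ l) {e : ℕ} (he : ∀ m, e ≤ f x m) (m : ℕ) : e ≤ l.foldr f m := by
  induction l with
  | nil => simp at hx
  | cons z l ih =>
    rcases List.mem_cons.1 hx with rfl | p
    · exact he _
    · exact (ih p).trans (h _ _)

theorem le_nb {n : ℕ} (ef : Bx → Fin 3 → ℕ) {K M : Bx} {a : Fin 3} (h1 : Srt n M)
    (h2 : Srt n (nx M a)) (h3 : ∀ i, M i ≤ K i + 1 ∧ K i ≤ M i + 1) (h4 : M a ≤ K a) :
    ef M a ≤ nb n ef K := by
  have l : ∀ i, M i + 1 - K i < 3 := fun i => by have := h3 i; omega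
  have e : M = fun i : Fin 3 => K i + (([⟨_, l 0⟩, ⟨_, l 1⟩, ⟨_, l 2⟩] : Wr).getD i 0).val - 1 :=
    funext fun i => by have := h3 i; fin_cases i <;> simp at this ⊢ <;> omega
  have m : ∀ (p : Prop) [Decidable p] (x m : ℕ), m ≤ if p then max x m else m := fun p _ x m => by
    split_ifs <;> simp
  refine foldr_le (fun J k => ?_) (mem_ws (J := [⟨_, l 0⟩, ⟨_, l 1⟩, ⟨_, l 2⟩]) le_rfl)
    (fun k => foldr_le (fun _ _ => m _ _ _) (x := a) (by fin_cases a <;> simp) (fun j => ?_) k) 0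
  · exact ((m _ _ _).trans (m _ _ _)).trans (m _ _ _)
  · simp only [← e]
    rw [if_pos ⟨h1, h2, (congrFun e a).ge.trans h4⟩]
    exact le_max_left _ _

namespace Gd

variable {n : ℕ} {br : ℕ → ℕ} (g : Gd n br)

/-- the grid -/
def gr : Gr := ⟨n, fun k => br k / 512, 1 / 1024, by norm_num, by norm_num, by simp [g.g.h0],
  by simp [g.g.hn], fun k hk => by
    have : (br k : ℝ) + 1 < br (k + 1) := by exact_mod_cast g.w k hk
    push_cast
    linarith⟩

/-- the blended map -/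
def bv (P : O3 → Bx → C3) : I4 → R := g.gr.bv P

/-- the blended function -/
def bs (P : O3 → Bx → C3) : R := g.gr.bs P

variable {P : O3 → Bx → C3} {K : Bx} {y : P3} {ε : ℝ}

theorem eqv (h : Dat n P) : Eqv (g.bv P) {g | SP g} := fun _ ⟨_, _, he, hg⟩ x i =>
  (Gr.bv_eqv (G := g.gr) h he (fun i => hg x i) i).trans (hg (vec (g.bv P) x) i).symm

theorem inv (h : Dat n P) : g.bs P ∈ invSub {g | SP g} := fun _ ⟨_, _, he, hg⟩ =>
  R.ext fun x => (act_apply _ _ _).trans (Gr.bs_inv (G := g.gr) h he fun i => hg x i)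

theorem core (hK : Srt n K) (k : InB 512 br K y) : g.gr.Core y K := fun a => by
  have := k a
  push_cast at this
  exact ⟨hK.lt a, by simp only [gr]; linarith, by simp only [gr]; linarith⟩

theorem face (F : ∀ M a, Srt n M → Srt n (nx M a) → (∀ i, M i ≤ K i + 1 ∧ K i ≤ M i + 1) →
    M a ≤ K a → FaceB br P M a ε) : g.gr.Face P K (1 / 1024) ε := by
  have s : ∀ M z, Monotone M → g.gr.In z M → Srt n M ∧ InE br M z := fun M z m p =>
    ⟨⟨m (by decide), m (by decide), (p 2).1⟩, fun a => by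
      have := p a
      simp only [gr] at this
      push_cast at this
      exact ⟨by linarith, by linarith⟩⟩
  intro M a o z m1 m2 h1 h2 z0 p q
  simpa using F M a (s _ _ m1 p).1 (s _ _ m2 q).1 h1 h2 o z z0 (s _ _ m1 p).2 (s _ _ m2 q).2

theorem proj {p q : C3} (Q : K 2 + 1 = n → ProjB br K p q ε) :
    g.gr.Proj K (1 / 1024) ε p q := fun e z k h => by
  simpa using Q e z (fun a => by
    have := k a
    simp only [gr] at this
    push_cast
    exact ⟨by linarith, by linarith⟩) (by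
    simp only [gr] at h
    push_cast at h
    linarith)

theorem cls (hK : Srt n K) (k : InB 512 br K y) : ∃ γ A Z, ∃ T : Tb, g.gr.Pos y K γ A Z ∧
    T.ok g.gr.d (1 / 1024) γ A Z = true ∧ Le (tb T.F) (tb (cK n br K)) := by
  have c := g.core hK k
  have m := fun a => (c.mem a).2
  have b : ∀ a (v : ℕ), br (K a + 1) ≤ v → y a ≤ v / 512 := fun a v h => by
    have : (br (K a + 1) : ℝ) ≤ v := by exact_mod_cast h
    have := (k a).2
    push_cast at this
    linarith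
  obtain ⟨s1, s2, s3⟩ := hK
  have u : ∀ a, y a ≤ ((![1, 1, 1] : Fin 3 → ℚ) a : ℝ) := fun a => by
    fin_cases a <;> simpa using m _
  have z : ∀ a, ![false, false, false] a = true → K a + 1 = g.gr.n ∧ 1 - g.gr.d ≤ y a :=
    fun a => by fin_cases a <;> simp
  have rf : ∀ N, Le (tb N) (tb N) := fun N J _ => ⟨J, .refl _, le_rfl⟩
  have t : ∀ (T : Tb) (γ : Fin 3 → ℚ), K 1 + 1 ≠ n → K 2 + 1 = n → (∀ a, y a ≤ γ a) →
      T.ok (1 / 1024) (1 / 1024) γ ![false, false, true] ![false, false, true] = true →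
      le (tb F0) T.F = true → ∃ γ A Z, ∃ S : Tb, g.gr.Pos y K γ A Z ∧
      S.ok g.gr.d (1 / 1024) γ A Z = true ∧ Le (tb S.F) (tb T.F) := fun T γ h1 h2 p q r => by
    have l0 := c.low (a := 0) (show K 0 + 1 ≠ n by omega)
    have l1 := c.low (a := 1) h1
    rcases lt_or_ge ((1 + g.gr.d) * y 2) 1 with e | e
    · refine ⟨_, _, _, T0, ⟨u, fun a _ => ?_, z⟩, T0_ok, le_of r⟩
      fin_cases a
      exacts [l0, l1, e]
    · refine ⟨_, _, _, T, ⟨p, fun a h => ?_, fun a h => ?_⟩, q, rf _⟩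
      · fin_cases a
        exacts [l0, l1, by simp at h]
      · fin_cases a
        exacts [by simp at h, by simp at h, ⟨h2, show _ ≤ y 2 by nlinarith [m 2, g.gr.dp]⟩]
  simp only [cK, cF, Bool.cond_eq_ite, Bool.and_eq_true, Nat.beq_eq, Nat.ble_eq]
  split_ifs with h2 h1 h0 o p q
  · exact ⟨_, _, _, T3, ⟨u, fun a h => by fin_cases a <;> simp at h, z⟩, T3_ok, rf _⟩
  · refine ⟨_, _, _, T2, ⟨u, fun a h => ?_, z⟩, T2_ok, rf _⟩
    fin_cases a
    exacts [c.low h0, by simp at h, by simp at h]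
  · refine t Tq _ h1 h2 (fun a => ?_) Tq_ok Tq_le
    fin_cases a
    exacts [(b 0 _ o.1).trans_eq (by norm_num), (b 1 _ o.2).trans_eq (by norm_num),
      by simpa using m 2]
  · refine t Ta _ h1 h2 (fun a => ?_) Ta_ok Ta_le
    fin_cases a
    exacts [(b 0 _ ((br_le g.g (by omega) (by omega)).trans p)).trans_eq (by norm_num),
      (b 1 _ p).trans_eq (by norm_num), by simpa using m 2]
  · refine t Tc _ h1 h2 (fun a => ?_) Tc_ok Tc_le
    fin_cases a
    exacts [(b 0 _ q).trans_eq (by norm_num), by simpa using m 1, by simpa using m 2]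
  · exact t T1 _ h1 h2 u T1_ok T1_le
  · refine ⟨_, _, _, T0, ⟨u, fun a _ => c.low ?_, z⟩, T0_ok, rf _⟩
    fin_cases a
    exacts [show K 0 + 1 ≠ n by omega, show K 1 + 1 ≠ n by omega, h2]

/-- **The jets of the blended map** on the closed box `K`. -/
theorem jet_v (h : Dat n P) (hε : 0 ≤ ε) (hK : Srt n K)
    (F : ∀ M a, Srt n M → Srt n (nx M a) → (∀ i, M i ≤ K i + 1 ∧ K i ≤ M i + 1) →
      M a ≤ K a → FaceB br P M a ε)
    (Q : K 2 + 1 = n → ∀ m, ProjB br K (P (oc (ta 2 m)) K) (P (oc m) K) ε)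
    (k : InB 512 br K y) (m : Fin 4) :
    Mj y 4 (ch (g.bv P m) - P (oc m) K) ε (tb (cK n br K)) := by
  obtain ⟨γ, A, Z, T, p, q, r⟩ := g.cls hK k
  exact (Gr.jet_v (G := g.gr) h (by norm_num) hε hK.mono (g.face F)
    (fun m => g.proj fun e => Q e m) (g.core hK k) p q m).le hε r

/-- **The jets of the blended function** on the closed box `K`. -/
theorem jet_s (h : Dat n P) (hε : 0 ≤ ε) (hK : Srt n K)
    (F : ∀ M a, Srt n M → Srt n (nx M a) → (∀ i, M i ≤ K i + 1 ∧ K i ≤ M i + 1) →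
      M a ≤ K a → FaceB br P M a ε)
    (Q : K 2 + 1 = n → ProjB br K (P none K) (P none K) ε) (k : InB 512 br K y) :
    Mj y 4 (ch (g.bs P) - P none K) ε (tb (cK n br K)) := by
  obtain ⟨γ, A, Z, T, p, q, r⟩ := g.cls hK k
  exact (Gr.jet_s (G := g.gr) h (by norm_num) hε hK.mono (g.face F) (g.proj Q) (g.core hK k)
    p q).le hε r

end Gd

theorem FaceB.mono {br : ℕ → ℕ} {P : O3 → Bx → C3} {M : Bx} {a : Fin 3} {ε ε' : ℝ}
    (h : FaceB br P M a ε) (e : ε ≤ ε') : FaceB br P M a ε' := fun o z p q r =>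
  (h o z p q r).trans e

theorem ProjB.mono {br : ℕ → ℕ} {K : Bx} {p q : C3} {ε ε' : ℝ} (h : ProjB br K p q ε)
    (e : ε ≤ ε') : ProjB br K p q ε' := fun z p q => (h z p q).trans e

/-- from a table of face mismatches to the neighbourhood of a box -/
theorem face_nb {n : ℕ} {br : ℕ → ℕ} {P : O3 → Bx → C3} {ef : Bx → Fin 3 → ℕ} {c : ℝ}
    (hc : 0 ≤ c) (F : ∀ M a, Srt n M → Srt n (nx M a) → FaceB br P M a (c * ef M a)) (K : Bx)
    {e : ℕ} (he : nb n ef K ≤ e) (M : Bx) (a : Fin 3) (h1 : Srt n M) (h2 : Srt n (nx M a))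
    (h3 : ∀ i, M i ≤ K i + 1 ∧ K i ≤ M i + 1) (h4 : M a ≤ K a) : FaceB br P M a (c * e) :=
  (F M a h1 h2).mono (mul_le_mul_of_nonneg_left
    (by exact_mod_cast (le_nb ef h1 h2 h3 h4).trans he) hc)

end Pool.Agent.MP_48470b_gt.Bl
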