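import Pool.Agent.MP_48470b_gt.Bl.Cht

/-! The blended functions on the sphere and their symmetry. -/

set_option autoImplicit false

open Finset Function
open scoped Topology ContDiff

noncomputable section

namespace Pool.Agent.MP_48470b_gt.Bl

open Dic Sph

/-- a one-sided cut-off -/
def kp (u : ℝ) : ℝ := Real.smoothTransition (50 * u - 41 / 2)

/-- the even (`s = 1`) or odd (`s = -1`) cut-off -/
def ka (s u : ℝ) : ℝ := kp u + s * kp (-u)

theorem kp_sm : ContDiff ℝ ∞ kp := Real.smoothTransition.contDiff.comp (by fun_prop)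

theorem ka_sm (s : ℝ) : ContDiff ℝ ∞ (ka s) :=
  kp_sm.add (contDiff_const.mul (kp_sm.comp contDiff_neg))

theorem kp_lo {u : ℝ} (h : u ≤ 41 / 100) : kp u = 0 :=
  Real.smoothTransition.zero_of_nonpos (by linarith)

theorem ka_one (s : ℝ) {u : ℝ} (h : 43 / 100 ≤ u) : ka s u = 1 := by
  rw [ka, kp_lo (u := -u) (by linarith), kp, Real.smoothTransition.one_of_one_le (by linarith)]
  simp

theorem ka_even {e : ℝ} (he : e = 1 ∨ e = -1) (u : ℝ) : ka 1 (e * u) = ka 1 u := by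
  rcases he with rfl | rfl <;> simp [ka, add_comm]

theorem ka_odd {e : ℝ} (he : e = 1 ∨ e = -1) (u : ℝ) : ka (-1) (e * u) = e * ka (-1) u := by
  rcases he with rfl | rfl <;> simp [ka, add_comm]

theorem iv_sgn {e : ℝ} (he : e = 1 ∨ e = -1) (u : ℝ) : iv (e * u) = e * iv u := by
  rcases he with rfl | rfl <;> simp [iv_neg]

/-- the exchange of `j` and the last index -/
def ta (j : Fin 4) : Equiv.Perm (Fin 4) := Equiv.swap j 3

/-- the index of a component in the chart -/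
def oc : Fin 4 → O3 := ![some 0, some 1, some 2, none]

/-- the coordinates in the chart `j` -/
def zz (j : Fin 4) (x : E4) : P3 := fun a => x (ta j a.castSucc) * iv (x j)

/-- a function of the chart `j`, cut off -/
def lf (s : ℝ) (j : Fin 4) (P : C3) : R :=
  res (fun x => ka s (x j) * P (zz j x)) fun _ =>
    (((ka_sm s).comp (by fun_prop)).mul (P.sm.comp (contDiff_pi.2 fun a =>
      (by fun_prop : ContDiff ℝ ∞ fun x : E4 => x (ta j a.castSucc)).mul
        (iv_sm.comp (by fun_prop))))).contDiffAt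

theorem lf_apply (s : ℝ) (j : Fin 4) (P : C3) (x : S3) :
    lf s j P x = ka s (x.1 j) * P (zz j x) := rfl

/-- the weights -/
def wt {A : Type*} [CommRing A] [Algebra ℝ A] (b : Fin 4 → A) (j : Fin 4) : A :=
  (1 / 6 : ℝ) • (1 + (4 : ℝ) • ∏ a : Fin 3, (1 - (1 / 2 : ℝ) • b (ta j a.castSucc)) +
    ∏ a : Fin 3, (1 - b (ta j a.castSucc)))

theorem map_wt {A B : Type*} [CommRing A] [Algebra ℝ A] [CommRing B] [Algebra ℝ B]
    (φ : A →ₐ[ℝ] B) (b : Fin 4 → A) (j : Fin 4) : φ (wt b j) = wt (fun c => φ (b c)) j := by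
  simp [wt]

theorem wt_sum (b : Fin 4 → ℝ) : ∑ j, wt b j * b j = 1 - ∏ j, (1 - b j) := by
  simp [wt, ta, Fin.sum_univ_four, Fin.prod_univ_succ, Equiv.swap_apply_def]
  ring

theorem ex_rho : ∀ (σ : Equiv.Perm (Fin 4)) (j : Fin 4), ∃ ρ : Equiv.Perm (Fin 3),
    (∀ a, σ (ta j a.castSucc) = ta (σ j) (ρ a).castSucc) ∧
      ∀ m, (oc (ta j m)).map ρ = oc (ta (σ j) (σ m)) := by decide +kernel

theorem oc_ta : ∀ j m : Fin 4, (∃ a : Fin 3, ta j a.castSucc = m ∧ oc (ta j m) = some a) ∨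
    j = m ∧ oc (ta j m) = none := by decide

namespace Gr

variable (G : Gr)

/-- the cut-off of the chart `j` -/
def be (j : Fin 4) : R := lf 1 j G.Th

/-- the blend of the components `c j` in the charts `j` -/
def gl (s : ℝ) (P : O3 → Bx → C3) (c : Fin 4 → O3) : R :=
  ∑ j, wt G.be j * lf s j (G.U P (c j))

/-- the blended map -/
def bv (P : O3 → Bx → C3) (m : Fin 4) : R := G.gl (-1) P fun j => oc (ta j m)

/-- the blended function -/
def bs (P : O3 → Bx → C3) : R := G.gl 1 P fun _ => none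

variable {G} {P : O3 → Bx → C3} {σ : Equiv.Perm (Fin 4)} {ε : Fin 4 → ℝ} {x y : S3}

theorem U_zz (h : Dat G.n P) (he : ∀ i, ε i = 1 ∨ ε i = -1) (hy : ∀ i, y.1 i = ε i * x.1 (σ i))
    {j : Fin 4} {ρ : Equiv.Perm (Fin 3)} (hρ : ∀ a, σ (ta j a.castSucc) = ta (σ j) (ρ a).castSucc)
    (o : O3) : G.U P o (zz j y) =
      sg (fun a => ε (ta j a.castSucc) * ε j) o * G.U P (o.map ρ) (zz (σ j) x) := by
  rw [← U_perm h, ← U_sgn fun a => by
    rcases he (ta j a.castSucc) with p | p <;> rcases he j with q | q <;> simp [p, q]]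
  refine congrArg (fun z => G.U P o z) (funext fun a => ?_)
  simp only [zz, hy, iv_sgn (he j), hρ, Pi.mul_apply, comp_apply]
  ring

theorem be_eqv (he : ∀ i, ε i = 1 ∨ ε i = -1) (hy : ∀ i, y.1 i = ε i * x.1 (σ i)) (j : Fin 4) :
    G.be j y = G.be (σ j) x := by
  obtain ⟨ρ, p, -⟩ := ex_rho σ j
  simp [be, lf_apply, Th, U_zz G.dat1 he hy p, hy, ka_even (he j), sg]

theorem wt_eqv (he : ∀ i, ε i = 1 ∨ ε i = -1) (hy : ∀ i, y.1 i = ε i * x.1 (σ i)) (j : Fin 4) :
    wt G.be j y = wt G.be (σ j) x := by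
  obtain ⟨ρ, p, -⟩ := ex_rho σ j
  simp only [wt, R.smul_apply, R.add_apply, R.prod_apply, R.sub_apply, R.one_apply,
    be_eqv he hy, p]
  rw [Equiv.prod_comp ρ fun a => 1 - 1 / 2 * G.be (ta (σ j) a.castSucc) x,
    Equiv.prod_comp ρ fun a => 1 - G.be (ta (σ j) a.castSucc) x]

theorem bs_inv (h : Dat G.n P) (he : ∀ i, ε i = 1 ∨ ε i = -1)
    (hy : ∀ i, y.1 i = ε i * x.1 (σ i)) : G.bs P y = G.bs P x := by
  simp only [bs, gl, R.sum_apply, R.mul_apply]
  rw [← Equiv.sum_comp σ fun j => wt G.be j x * lf 1 j (G.U P none) x]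
  refine sum_congr rfl fun j _ => ?_
  obtain ⟨ρ, p, -⟩ := ex_rho σ j
  simp [wt_eqv he hy, lf_apply, U_zz h he hy p, hy, ka_even (he j), sg]

theorem bv_eqv (h : Dat G.n P) (he : ∀ i, ε i = 1 ∨ ε i = -1)
    (hy : ∀ i, y.1 i = ε i * x.1 (σ i)) (m : Fin 4) : G.bv P m y = ε m * G.bv P (σ m) x := by
  simp only [bv, gl, R.sum_apply, R.mul_apply]
  rw [← Equiv.sum_comp σ fun j => wt G.be j x * lf (-1) j (G.U P (oc (ta j (σ m)))) x, mul_sum]
  refine sum_congr rfl fun j _ => ?_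
  obtain ⟨ρ, p, q⟩ := ex_rho σ j
  have : ε j * sg (fun a => ε (ta j a.castSucc) * ε j) (oc (ta j m)) = ε m := by
    rcases oc_ta j m with ⟨a, u, v⟩ | ⟨u, v⟩
    · rcases he j with w | w <;> simp [v, sg, u, w]
    · rw [v, ← u]
      simp [sg]
  rw [wt_eqv he hy, lf_apply, lf_apply, U_zz h he hy p, hy, ka_odd (he j), q, ← this]
  ring

theorem be_one (x : S3) : ∃ j, G.be j x = 1 := by
  obtain ⟨j, -, hj⟩ := exists_max_image univ (fun i => |x.1 i|) univ_nonempty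
  have n := normsq4 x.1
  rw [S3.norm] at n
  have q := fun i => sq_le_sq.2 (hj i (mem_univ i))
  have b : 1 / 2 ≤ |x.1 j| := (abs_le_of_sq_le_sq' (by
    rw [sq_abs]; linarith [q 0, q 1, q 2, q 3]) (abs_nonneg _)).2
  obtain ⟨e, he, p⟩ : ∃ e : ℝ, (e = 1 ∨ e = -1) ∧ x.1 j = e * |x.1 j| := by
    rcases le_total 0 (x.1 j) with p | p
    · exact ⟨1, .inl rfl, by simp [abs_of_nonneg p]⟩
    · exact ⟨-1, .inr rfl, by simp [abs_of_nonpos p]⟩
  refine ⟨j, ?_⟩
  rw [be, lf_apply, G.Th_one fun a => ?_, p, ka_even he, ka_one _ (by linarith), mul_one]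
  rw [zz, p, iv_sgn he, iv_eq (by linarith), abs_mul, abs_mul, abs_inv, abs_abs,
    show |e| = 1 by rcases he with rfl | rfl <;> simp, one_mul]
  exact mul_inv_le_one_of_le₀ (hj _ (mem_univ _)) (abs_nonneg _)

theorem wt_be : ∑ j, wt G.be j * G.be j = 1 := R.ext fun x => by
  obtain ⟨j, h⟩ := G.be_one x
  have := wt_sum fun j => G.be j x
  rw [prod_eq_zero (mem_univ j) (by simp [h]), sub_zero] at this
  simp only [R.sum_apply, R.mul_apply, R.one_apply, ← this]
  exact sum_congr rfl fun i _ => congrArg (· * _) (map_wt (ev x) _ _)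

end Gr

theorem pr_up (z : P3) (i : Fin 4) : (pr (up z)).1 i = ‖up z‖⁻¹ * up z i := by
  rw [pr_val (up_ne z)]
  rfl

theorem norm_up (z : P3) : ‖up z‖ ^ 2 = z 0 ^ 2 + z 1 ^ 2 + z 2 ^ 2 + 1 := by
  simp [normsq4, up]

theorem up_pos (z : P3) : 0 < ‖up z‖ := norm_pos_iff.2 (up_ne z)

theorem up_cs (z : P3) (a : Fin 3) : up z a.castSucc = z a := by fin_cases a <;> rfl

theorem near_X {y : P3} {j : Fin 4} (h : 43 / 100 * ‖up y‖ < up y j) :
    ∀ᶠ z in 𝓝 y, 43 / 100 < (pr (up z)).1 j :=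
  (ch (X j)).continuous.continuousAt.eventually (lt_mem_nhds (by
    show _ < (pr (up y)).1 j
    rwa [pr_up, ← div_eq_inv_mul, lt_div_iff₀ (up_pos y)]))

theorem zz_up {z : P3} {j : Fin 4} (h : 2 / 5 ≤ (pr (up z)).1 j) (a : Fin 3) :
    zz j (pr (up z)) a = up z (ta j a.castSucc) * (up z j)⁻¹ := by
  have := (up_pos z).ne'
  rw [zz, iv_eq h, pr_up, pr_up, mul_inv, inv_inv]
  field_simp

theorem ch_lf (s : ℝ) (j : Fin 4) (P : C3) (z : P3) :
    ch (lf s j P) z = ka s ((pr (up z)).1 j) * P (zz j (pr (up z))) := rfl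

theorem ta3 (a : Fin 4) : ta 3 a = a := by simp [ta]

variable {y : P3}

theorem lf_main (hy : ∀ a, 0 ≤ y a ∧ y a ≤ 1) (s : ℝ) (P : C3) : Loc y (ch (lf s 3 P)) P :=
  (near_X (j := 3) (by
    have := norm_up y
    refine lt_of_pow_lt_pow_left₀ 2 zero_le_one ?_
    rw [mul_pow, this, show up y 3 = 1 from rfl]
    nlinarith [hy 0, hy 1, hy 2])).mono fun z hz => by
    rw [ch_lf, ka_one s hz.le, one_mul]
    refine congrArg (fun z => P z) (funext fun a => ?_)
    rw [zz_up (by linarith), ta3, up_cs]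
    exact mul_inv_eq_iff_eq_mul₀ one_ne_zero |>.2 (mul_one _).symm

theorem up_ta (z : P3) (i a : Fin 3) :
    up z (ta i.castSucc a.castSucc) = if a = i then 1 else z a := by
  fin_cases i <;> fin_cases a <;> rfl

theorem lf_sw (hy : ∀ a, 0 ≤ y a ∧ y a ≤ 1) {i : Fin 3} (hi : 5 / 6 ≤ y i) (s : ℝ) (P : C3) :
    Loc y (ch (lf s i.castSucc P)) (sub (sw i) P) :=
  ((near_X (j := i.castSucc) (by
    have := norm_up y
    rw [up_cs]
    refine lt_of_pow_lt_pow_left₀ 2 (hy i).1 ?_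
    rw [mul_pow, this]
    fin_cases i <;> simp at hi ⊢ <;> nlinarith [hy 0, hy 1, hy 2])).and
      (near (c := 2 / 5) (j := i) (by linarith))).mono fun z hz => by
    rw [ch_lf, ka_one s hz.1.le, one_mul, sub_apply]
    refine congrArg (fun z => P z) (funext fun a => ?_)
    rw [zz_up (by linarith [hz.1]), up_ta, up_cs, sw]
    split_ifs <;> simp [iv_eq hz.2.le]

theorem lf_off {G : Gr} {P : O3 → Bx → C3} (h : Dat G.n P) {i : Fin 3} (h0 : 0 ≤ y i)
    (hi : (1 + G.d) * y i < 1) (s : ℝ) (o : O3) : Loc y (ch (lf s i.castSucc (G.U P o))) 0 := by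
  have d0 := G.dp
  have e : ∀ᶠ z in 𝓝 y, z i < (1 + G.d : ℝ)⁻¹ :=
    (continuous_apply i).continuousAt.eventually (gt_mem_nhds (by
      rwa [← one_div, lt_div_iff₀' (by linarith)]))
  refine (e.and (near (c := -1 / 5) (j := i) (by linarith))).mono fun z hz => ?_
  have n : 1 ≤ ‖up z‖ := (abs_le_of_sq_le_sq' (by rw [norm_up]; nlinarith) (norm_nonneg _)).2
  have n0 := inv_pos.2 (up_pos z)
  have n1 := inv_le_one_of_one_le₀ n
  have x0 := pr_up z i.castSucc
  rw [up_cs] at x0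
  rw [ch_lf, C3.zero_apply]
  rcases le_total ((pr (up z)).1 i.castSucc) (41 / 100) with p | p
  · rw [ka, kp_lo p, kp_lo (by rw [x0]; nlinarith [hz.2]), mul_zero, add_zero, zero_mul]
  · rw [Gr.U_zero h (a := i), mul_zero]
    rw [zz_up (by linarith), up_ta, if_pos rfl, up_cs, one_mul]
    exact (le_inv_comm₀ (by linarith) (by rw [x0] at p; nlinarith)).2 hz.1.le

end Pool.Agent.MP_48470b_gt.Bl
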