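import Mathlib

/-! A smooth step function with explicit bounds for four derivatives. -/

set_option autoImplicit false

open Set
open scoped ContDiff

noncomputable section

namespace Pool.Agent.MP_48470b_gt.Bl

/-- smooth monotone steps from `0` to `1` on the interval from `0` to `a` -/
structure St (a : ℝ) (u : ℝ → ℝ) : Prop where
  sm : ContDiff ℝ ∞ u
  mono : Monotone u
  lo : ∀ x, x ≤ 0 → u x = 0
  hi : ∀ x, a ≤ x → u x = 1

theorem St.mem {a : ℝ} {u : ℝ → ℝ} (h : St a u) (x : ℝ) : 0 ≤ u x ∧ u x ≤ 1 :=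
  ⟨(h.lo _ (min_le_right x 0)).ge.trans (h.mono (min_le_left _ _)),
    (h.mono (le_max_left x a)).trans (h.hi _ (le_max_right _ _)).le⟩

/-- the difference quotient -/
def df (b : ℝ) (u : ℝ → ℝ) (x : ℝ) : ℝ := (u x - u (x - b)) / b

/-- the moving average -/
def av (b : ℝ) (u : ℝ → ℝ) : ℝ → ℝ := df b fun x => ∫ t in (0 : ℝ)..x, u t

theorem df_der {b : ℝ} {u v : ℝ → ℝ} (h : ∀ x, HasDerivAt u (v x) x) (x : ℝ) :
    HasDerivAt (df b u) (df b v x) x :=
  ((h x).sub ((h (x - b)).comp_sub_const x b)).div_const b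

theorem av_der {b : ℝ} {u : ℝ → ℝ} (h : Continuous u) (x : ℝ) :
    HasDerivAt (av b u) (df b u x) x :=
  df_der (fun x => (h.integral_hasStrictDerivAt 0 x).hasDerivAt) x

theorem St.av {a b : ℝ} {u : ℝ → ℝ} (h : St a u) (hb : 0 < b) : St (a + b) (av b u) := by
  have c := h.sm.continuous
  have d := fun x => av_der (b := b) c x
  have e : ∀ x, Bl.av b u x = (∫ t in x - b..x, u t) / b := fun x => by
    rw [Bl.av, df, intervalIntegral.integral_interval_sub_left (c.intervalIntegrable _ _)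
      (c.intervalIntegrable _ _)]
  refine ⟨contDiff_infty_iff_deriv.2 ⟨fun x => (d x).differentiableAt, ?_⟩,
    monotone_of_deriv_nonneg (fun x => (d x).differentiableAt) fun x => ?_, fun x hx => ?_,
    fun x hx => ?_⟩
  · rw [show deriv (Bl.av b u) = df b u from funext fun x => (d x).deriv]
    exact (h.sm.sub (h.sm.comp (contDiff_id.sub contDiff_const))).div_const b
  · rw [(d x).deriv]
    exact div_nonneg (sub_nonneg.2 (h.mono (by linarith))) hb.le
  · rw [e, intervalIntegral.integral_congr (g := fun _ => 0) fun t ht => h.lo t ?_]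
    · simp
    · rw [uIcc_of_le (by linarith)] at ht
      linarith [ht.2]
  · rw [e, intervalIntegral.integral_congr (g := fun _ => 1) fun t ht => h.hi t ?_]
    · simp [hb.ne']
    · rw [uIcc_of_le (by linarith)] at ht
      linarith [ht.1]

theorem df_le {b c : ℝ} {u : ℝ → ℝ} (hb : 0 < b) (h : ∀ x, |u x| ≤ c) (x : ℝ) :
    |df b u x| ≤ 2 * c / b := by
  rw [df, abs_div, abs_of_pos hb]
  exact div_le_div_of_nonneg_right ((abs_sub _ _).trans (by linarith [h x, h (x - b)])) hb.le

theorem St.df1 {a b : ℝ} {u : ℝ → ℝ} (h : St a u) (hb : 0 < b) (x : ℝ) :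
    0 ≤ df b u x ∧ df b u x ≤ 1 / b :=
  ⟨div_nonneg (sub_nonneg.2 (h.mono (by linarith))) hb.le,
    div_le_div_of_nonneg_right (by linarith [(h.mem x).2, (h.mem (x - b)).1]) hb.le⟩

theorem St.df2 {a b : ℝ} {u : ℝ → ℝ} (h : St a u) (hb : 0 < b) (x : ℝ) :
    |df b (df b u) x| ≤ 1 / b / b := by
  have p := h.df1 hb x
  have q := h.df1 hb (x - b)
  rw [df, abs_div, abs_of_pos hb]
  exact div_le_div_of_nonneg_right (abs_le.2 ⟨by linarith, by linarith⟩) hb.le

theorem df_comm (a b : ℝ) (u : ℝ → ℝ) : df a (df b u) = df b (df a u) := funext fun x => by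
  simp only [df, sub_right_comm x a b]
  ring

theorem ex_step : ∃ η : ℕ → ℝ → ℝ, St 1 (η 0) ∧ (∀ k x, HasDerivAt (η k) (η (k + 1) x) x) ∧
    (∀ x, |η 1 x| ≤ 3) ∧ (∀ x, |η 2 x| ≤ 7) ∧ (∀ x, |η 3 x| ≤ 132) ∧ ∀ x, |η 4 x| ≤ 2640 := by
  have s0 : St (1 / 50) fun x => Real.smoothTransition (50 * x) :=
    ⟨Real.smoothTransition.contDiff.comp (contDiff_const.mul contDiff_id),
      Real.smoothTransition.monotone.comp fun _ _ h => by linarith,
      fun x h => Real.smoothTransition.zero_of_nonpos (by linarith),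
      fun x h => Real.smoothTransition.one_of_one_le (by linarith)⟩
  have p : (0 : ℝ) < 1 / 10 := by norm_num
  have q : (0 : ℝ) < 39 / 100 := by norm_num
  have s1 := s0.av p
  have s2 := s1.av p
  have s3 := s2.av q
  have s4 := s3.av q
  set u := av (39 / 100) (av (39 / 100) (av (1 / 10) (av (1 / 10) fun x =>
    Real.smoothTransition (50 * x))))
  have d1 := deriv_eq (av_der (b := 39 / 100) s3.sm.continuous)
  have d2 := deriv_eq (df_der (b := 39 / 100) (av_der (b := 39 / 100) s2.sm.continuous))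
  have d3 := deriv_eq (df_der (b := 39 / 100) (df_der (b := 39 / 100)
    (av_der (b := 1 / 10) s1.sm.continuous)))
  have d4 := deriv_eq (df_der (b := 39 / 100) (df_der (b := 39 / 100) (df_der (b := 1 / 10)
    (av_der (b := 1 / 10) s0.sm.continuous))))
  refine ⟨fun k => deriv^[k] u, by convert s4 using 1 <;> norm_num, fun k x => ?_, fun x => ?_,
    fun x => ?_, fun x => ?_, fun x => ?_⟩
  · simp only [Function.iterate_succ_apply']
    exact ((s4.sm.iterate_deriv k).differentiable (by simp) x).hasDerivAt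
  · have := s3.df1 q x
    show |deriv u x| ≤ 3
    rw [d1, abs_of_nonneg this.1]
    linarith [this.2]
  · show |deriv (deriv u) x| ≤ 7
    rw [d1, d2]
    linarith [s2.df2 q x]
  · show |deriv (deriv (deriv u)) x| ≤ 132
    rw [d1, d2, d3, df_comm _ (1 / 10), df_comm _ (1 / 10)]
    linarith [df_le p (s1.df2 q) x]
  · show |deriv (deriv (deriv (deriv u))) x| ≤ 2640
    rw [d1, d2, d3, d4, df_comm (39 / 100) (1 / 10), df_comm (39 / 100) (1 / 10),
      df_comm (39 / 100) (1 / 10), df_comm (39 / 100) (1 / 10)]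
    linarith [df_le p (df_le p (s0.df2 q)) x]

theorem flat {η : ℕ → ℝ → ℝ} (h : ∀ k x, HasDerivAt (η k) (η (k + 1) x) x) {U : Set ℝ}
    (hU : IsOpen U) {c : ℝ} (h0 : ∀ x ∈ U, η 0 x = c) (k : ℕ) :
    ∀ x ∈ closure U, η (k + 1) x = 0 := by
  have e : ∀ k c, (∀ x ∈ U, η k x = c) → ∀ x ∈ U, η (k + 1) x = 0 := fun k c p x hx =>
    (h k x).unique ((hasDerivAt_const x c).congr_of_eventuallyEq
      (Filter.eventually_of_mem (hU.mem_nhds hx) p))
  have : ∀ x ∈ U, η (k + 1) x = 0 := by
    induction k with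
    | zero => exact e 0 c h0
    | succ k ih => exact e _ 0 ih
  exact closure_minimal this (isClosed_eq
    (continuous_iff_continuousAt.2 fun x => (h _ x).continuousAt) continuous_const)

end Pool.Agent.MP_48470b_gt.Bl
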