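import Pool.Agent.MP_48470b_gt.Bl.Jet
import Pool.Agent.MP_48470b_gt.Bl.Step

/-! The partition of unity on a grid of the interval. -/

set_option autoImplicit false

open Finset

noncomputable section

namespace Pool.Agent.MP_48470b_gt.Bl

/-- the step -/
def eta : Tw := ⟨ex_step.choose, ex_step.choose_spec.2.1⟩

/-- bounds for the derivatives of the step -/
def cb : ℕ → ℚ
  | 0 => 1
  | 1 => 3
  | 2 => 7
  | 3 => 132
  | _ => 2640

theorem eta_st : St 1 (eta.f 0) := ex_step.choose_spec.1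

theorem eta_le {k : ℕ} (hk : k ≤ 4) (x : ℝ) : |eta.f k x| ≤ cb k := by
  obtain ⟨-, -, h1, h2, h3, h4⟩ := ex_step.choose_spec
  interval_cases k
  · rw [abs_of_nonneg (eta_st.mem x).1]
    simpa [cb] using (eta_st.mem x).2
  exacts [(h1 x).trans_eq (by simp [cb]), (h2 x).trans_eq (by simp [cb]),
    (h3 x).trans_eq (by simp [cb]), (h4 x).trans_eq (by simp [cb])]

theorem eta_lo (k : ℕ) {x : ℝ} (h : x ≤ 0) : eta.f k x = 0 := by
  cases k
  · exact eta_st.lo x h
  · exact flat eta.d isOpen_Iio (fun x hx => eta_st.lo x (le_of_lt hx)) _ x (by simpa using h)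

theorem eta_hi (k : ℕ) {x : ℝ} (h : 1 ≤ x) : eta.f k x = if k = 0 then 1 else 0 := by
  cases k
  · exact eta_st.hi x h
  · exact flat eta.d isOpen_Ioi (fun x hx => eta_st.hi x (le_of_lt hx)) _ x (by simpa using h)

/-- rescaling -/
def Tw.aff (F : Tw) (a h : ℝ) : Tw :=
  ⟨fun k s => F.f k ((s - a) / h) / h ^ k, fun k s => by
    refine (((F.d k ((s - a) / h)).comp s (((hasDerivAt_id s).sub_const a).div_const h)).div_const
      (h ^ k)).congr_deriv ?_
    ring⟩

/-- differences -/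
def Tw.sub (F G : Tw) : Tw := ⟨fun k s => F.f k s - G.f k s, fun k s => (F.d k s).sub (G.d k s)⟩

/-- constants -/
def cst (c : ℝ) : Tw := ⟨fun k _ => if k = 0 then c else 0, fun _ s => hasDerivAt_const s _⟩

/-- a grid on the unit interval with transition zones of half width `d` -/
structure Gr where
  /-- the number of boxes -/
  n : ℕ
  /-- the break points -/
  t : ℕ → ℝ
  /-- the half width -/
  d : ℚ
  d0 : 0 < d
  d1 : d ≤ 1 / 5
  t0 : t 0 = 0
  t1 : t n = 1
  gap : ∀ k, k < n → t k + 2 * d < t (k + 1)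

/-- the majorant of the partition of unity -/
def sS (d : ℚ) (top : Bool) (k : ℕ) : ℚ :=
  if top || k == 0 then cb k / d ^ k else 2 * (cb k / (2 * d) ^ k)

/-- the majorant of the last step -/
def sT (d : ℚ) (top : Bool) (k : ℕ) : ℚ := if top || k == 0 then cb k / d ^ k else 0

/-- the majorant of the neighbours -/
def sN (d : ℚ) (Z : Bool) (k : ℕ) : ℚ := if Z then 0 else cb k / (2 * d) ^ k

theorem one_le {s : Finset ℕ} {f : ℕ → ℝ} {B : ℝ} (k : ℕ) (h : ∀ l ∈ s, l ≠ k → f l = 0)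
    (hk : k ∈ s → f k ≤ B) (h0 : 0 ≤ B) : ∑ l ∈ s, f l ≤ B := by
  by_cases p : k ∈ s
  · exact (sum_eq_single_of_mem k p h).trans_le (hk p)
  · exact (sum_eq_zero fun l hl => h l hl fun e => p (e ▸ hl)).trans_le h0

namespace Gr

variable (G : Gr)

theorem dp : (0 : ℝ) < G.d := by exact_mod_cast G.d0

theorem dl : (G.d : ℝ) ≤ 1 / 5 := by
  have : ((G.d : ℚ) : ℝ) ≤ ((1 / 5 : ℚ) : ℝ) := by exact_mod_cast G.d1
  linarith [show ((1 / 5 : ℚ) : ℝ) = 1 / 5 by norm_num]

theorem npos : 0 < G.n := Nat.pos_of_ne_zero fun h => by simpa [h, G.t0] using G.t1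

theorem lt {k l : ℕ} (h : k < l) (hl : l ≤ G.n) : G.t k + 2 * G.d < G.t l := by
  induction l with
  | zero => omega
  | succ l ih =>
    rcases (Nat.lt_succ_iff.1 h).eq_or_lt with rfl | p
    · exact G.gap _ hl
    · linarith [ih p (by omega), G.gap l hl, G.dp]

theorem le {k l : ℕ} (h : k ≤ l) (hl : l ≤ G.n) : G.t k ≤ G.t l := by
  rcases h.eq_or_lt with rfl | p
  · exact le_rfl
  · linarith [G.lt p hl, G.dp]

/-- the steps -/
def stp (c : ℝ) (k : ℕ) : Tw :=
  if k = 0 then cst c else if k = G.n then eta.aff 1 G.d else eta.aff (G.t k - G.d) (2 * G.d)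

/-- the partition of unity -/
def ps (c : ℝ) (k : ℕ) : Tw := (G.stp c k).sub (G.stp c (k + 1))

/-- its sum -/
def th : Tw := (cst 1).sub (G.stp 1 G.n)

variable {c s : ℝ} {k : ℕ}

theorem stp_top (j : ℕ) (h : s ≤ 1) : (G.stp c G.n).f j s = 0 := by
  simp [stp, G.npos.ne', Tw.aff, eta_lo j (div_nonpos_of_nonpos_of_nonneg (sub_nonpos.2 h) G.dp.le)]

theorem stp_lo (j : ℕ) (hk : k ≠ 0) (h : s ≤ G.t k - G.d) : (G.stp c k).f j s = 0 := by
  have := G.dp
  by_cases e : k = G.n
  · exact e ▸ G.stp_top j (by rw [e, G.t1] at h; linarith)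
  · simp [stp, hk, e, Tw.aff, eta_lo j (div_nonpos_of_nonpos_of_nonneg (sub_nonpos.2 h)
      (by linarith : (0 : ℝ) ≤ 2 * G.d))]

theorem stp_hi (j : ℕ) (h : G.t k + G.d ≤ s) : (G.stp 1 k).f j s = if j = 0 then 1 else 0 := by
  have := G.dp
  unfold stp
  split_ifs with a b p
  · simp [cst, b]
  · simp [cst, b]
  all_goals
    simp only [Tw.aff]
    rw [eta_hi _ ((one_le_div (by linarith)).2 (by
      first | (rw [p, G.t1] at h; linarith) | linarith))]
    simp [*]

theorem stp_mem (k : ℕ) (s : ℝ) : 0 ≤ (G.stp 1 k).f 0 s ∧ (G.stp 1 k).f 0 s ≤ 1 := by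
  unfold stp
  split_ifs <;> simp [cst, Tw.aff, eta_st.mem]

theorem stp_le {j : ℕ} (hj : j ≤ 4) (hk : k ≠ 0) (s : ℝ) :
    |(G.stp c k).f j s| ≤ cb j / (if k = G.n then (G.d : ℝ) else 2 * G.d) ^ j := by
  have := G.dp
  simp only [stp, if_neg hk]
  split_ifs <;> simp only [Tw.aff] <;> rw [abs_div, abs_of_pos (a := _ ^ j) (by positivity)] <;>
    exact div_le_div_of_nonneg_right (eta_le hj _) (by positivity)

theorem ps_zero (j : ℕ) (hs : 0 ≤ s) (hk : k < G.n)
    (h : s ≤ G.t k - G.d ∨ G.t (k + 1) + G.d ≤ s) : (G.ps 1 k).f j s = 0 := by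
  have := G.le k.le_succ hk
  simp only [ps, Tw.sub]
  rcases h with h | h
  · rw [G.stp_lo j (by rintro rfl; linarith [G.t0, G.dp]) h, G.stp_lo j k.succ_ne_zero
      (by linarith), sub_self]
  · rw [G.stp_hi j h, G.stp_hi j (by linarith), sub_self]

theorem ps_sum (s : ℝ) : ∑ l ∈ range G.n, (G.ps 1 l).f 0 s = G.th.f 0 s := by
  simp only [ps, th, Tw.sub]
  rw [sum_range_sub' fun l => (G.stp 1 l).f 0 s]
  rfl

theorem ps_neg (hs : -(G.d : ℝ) ≤ s) (hk : k < G.n) (h : k ≠ 0) : (G.ps c k).f 0 (-s) = 0 := by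
  have a := G.lt (Nat.pos_of_ne_zero h) hk.le
  have b := G.le k.le_succ hk
  rw [G.t0] at a
  simp only [ps, Tw.sub]
  rw [G.stp_lo 0 h (by linarith), G.stp_lo 0 k.succ_ne_zero (by linarith), sub_self]

theorem ps_even (hs : -(G.d : ℝ) ≤ s) (hk : k < G.n) :
    (G.ps (1 / 2) k).f 0 s + (G.ps (1 / 2) k).f 0 (-s) = (G.ps 1 k).f 0 s := by
  rcases eq_or_ne k 0 with rfl | h
  · have a := G.gap 0 hk
    rw [G.t0] at a
    simp only [ps, Tw.sub]
    rw [G.stp_lo (s := -s) 0 (Nat.succ_ne_zero 0) (by linarith)]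
    simp [stp, cst]
    ring
  · rw [G.ps_neg hs hk h]
    simp [ps, Tw.sub, stp, h]

theorem ps_fam {top : Bool} (ht : top = false → s ≤ 1) (j : ℕ) (hj : j ≤ 4) :
    ∑ l ∈ range G.n, |(G.ps 1 l).f j s| ≤ sS G.d top j := by
  have d0 := G.dp
  rcases eq_or_ne j 0 with rfl | j0
  · rw [sum_congr rfl fun l hl => abs_of_nonneg ?_, ps_sum]
    · simpa [th, Tw.sub, cst, sS, cb] using (G.stp_mem _ s).1
    · simp only [ps, Tw.sub]
      rcases le_total s (G.t (l + 1) - G.d) with p | p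
      · rw [G.stp_lo 0 l.succ_ne_zero p, sub_zero]
        exact (G.stp_mem _ _).1
      · rw [G.stp_hi 0 (by linarith [G.gap l (mem_range.1 hl)]), if_pos rfl, sub_nonneg]
        exact (G.stp_mem _ _).2
  obtain ⟨g, hg⟩ : ∃ g : ℕ → ℝ, g = fun l => |(G.stp 1 l).f j s| := ⟨_, rfl⟩
  have g0 : g 0 = 0 := by simp [hg, stp, cst, j0]
  have gs : ∀ l, g l ≠ 0 → G.t l - G.d < s ∧ s < G.t l + G.d := fun l h =>
    ⟨not_le.1 fun p => h (by rw [hg]; simp [G.stp_lo j (fun e : l = 0 => h (e ▸ g0)) p]),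
      not_le.1 fun p => h (by rw [hg]; simp [G.stp_hi j p, j0])⟩
  have c0 : (0 : ℝ) ≤ cb j := (abs_nonneg _).trans (eta_le hj 0)
  have b1 : 2 * ((cb j : ℝ) / (2 * G.d) ^ j) ≤ sS G.d top j := by
    unfold sS
    split_ifs
    · obtain ⟨i, rfl⟩ := Nat.exists_eq_succ_of_ne_zero j0
      push_cast
      rw [mul_pow, ← mul_div_assoc, div_le_div_iff₀ (by positivity) (by positivity), pow_succ 2]
      nlinarith [one_le_pow₀ (n := i) (one_le_two (α := ℝ)), mul_nonneg c0 (pow_pos d0 i.succ).le]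
    · push_cast
      exact le_rfl
  have b0 : (0 : ℝ) ≤ sS G.d top j := le_trans (by positivity) b1
  have e : ∑ l ∈ range G.n, |(G.ps 1 l).f j s| ≤ 2 * ∑ l ∈ range (G.n + 1), g l - g G.n := by
    have := sum_le_sum (s := range G.n) fun l _ => abs_sub ((G.stp 1 l).f j s)
      ((G.stp 1 (l + 1)).f j s)
    rw [sum_add_distrib] at this
    have p := sum_range_succ g G.n
    have q := sum_range_succ' g G.n
    rw [g0] at q
    simp only [hg] at p q ⊢
    simp only [ps, Tw.sub]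
    linarith
  by_cases h : ∃ k, k ≤ G.n ∧ g k ≠ 0
  · obtain ⟨k, hk, h⟩ := h
    rw [sum_eq_single_of_mem (s := range (G.n + 1)) (f := g) k (mem_range.2 (by omega))
      fun l hl p => by_contra fun q => by
      rcases lt_or_gt_of_ne p with r | r
      · linarith [G.lt r hk, gs _ h, gs _ q]
      · linarith [G.lt r (Nat.lt_succ_iff.1 (mem_range.1 hl)), gs _ h, gs _ q]] at e
    have := G.stp_le (c := 1) hj (fun p : k = 0 => h (p ▸ g0)) s
    split_ifs at this with p
    · subst p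
      cases top
      · exact absurd (by simp [hg, G.stp_top j (ht rfl)]) h
      · simp only [hg] at e
        simp only [sS, Bool.true_or, if_true]
        push_cast
        linarith
    · simp only [hg] at e
      linarith [abs_nonneg ((G.stp 1 G.n).f j s)]
  · push Not at h
    rw [sum_eq_zero fun l hl => h l (Nat.lt_succ_iff.1 (mem_range.1 hl)), h _ le_rfl] at e
    linarith

theorem ps_nb {Z : Bool} (hk : k < G.n) (hs : 0 ≤ s) (h1 : G.t k - G.d ≤ s)
    (h2 : s ≤ G.t (k + 1) + G.d) (hZ : Z = true → k + 1 = G.n ∧ 1 - G.d ≤ s) (j : ℕ) (hj : j ≤ 4) :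
    ∑ l ∈ range G.n, |(if l = k then cst 0 else G.ps 1 l).f j s| ≤ sN G.d Z j := by
  have d0 := G.dp
  have z : ∀ l ∈ range G.n, (l ≠ k → s ≤ G.t l - G.d ∨ G.t (l + 1) + G.d ≤ s) →
      |(if l = k then cst 0 else G.ps 1 l).f j s| = 0 := fun l hl h => by
    split_ifs with e
    · simp [cst]
    · rw [G.ps_zero j hs (mem_range.1 hl) (h e), abs_zero]
  cases Z
  swap
  · obtain ⟨e, p⟩ := hZ rfl
    refine (sum_eq_zero fun l hl => z l hl fun q => .inr ?_).trans_le (by simp [sN])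
    have := mem_range.1 hl
    linarith [G.le (k := l + 1) (l := k) (by omega) hk.le, G.gap k hk, e ▸ G.t1]
  rcases eq_or_ne j 0 with rfl | j0
  · refine (sum_le_sum fun l _ => ?_).trans
      ((G.ps_fam (top := true) (s := s) (by simp) 0 hj).trans (by simp [sS, sN]))
    split_ifs <;> simp [cst]
  have c0 : (0 : ℝ) ≤ cb j := (abs_nonneg _).trans (eta_le hj 0)
  simp only [sN, Bool.false_eq_true, if_false]
  push_cast
  rcases le_total s (G.t (k + 1) - G.d) with p | p
  · refine one_le (k - 1) (fun l hl e => z l hl fun q => ?_) (fun _ => ?_) (by positivity)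
    · rcases lt_or_gt_of_ne q with r | r
      · exact .inr (by linarith [G.lt (k := l + 1) (l := k) (by omega) hk.le])
      · exact .inl (by linarith [G.le (k := k + 1) r (mem_range.1 hl).le])
    · rcases k with _ | k
      · simpa [cst] using by positivity
      · simp only [Nat.add_sub_cancel, if_neg k.succ_ne_self.symm, ps, Tw.sub]
        rw [G.stp_hi j (by linarith [G.gap k (by omega)]), if_neg j0, zero_sub, abs_neg]
        simpa [hk.ne] using G.stp_le (c := 1) hj k.succ_ne_zero s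
  · refine one_le (k + 1) (fun l hl e => z l hl fun q => ?_) (fun hl => ?_) (by positivity)
    · rcases lt_or_gt_of_ne q with r | r
      · exact .inr (by linarith [G.le (k := l + 1) r hk.le, G.gap k hk])
      · exact .inl (by linarith [G.lt (k := k + 1) (l := l) (by omega) (mem_range.1 hl).le])
    · have := mem_range.1 hl
      simp only [if_neg k.succ_ne_self, ps, Tw.sub]
      rw [G.stp_lo (k := k + 1 + 1) j (by omega) (by linarith [G.gap _ this]), sub_zero]
      simpa [this.ne] using G.stp_le (c := 1) hj k.succ_ne_zero s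

theorem th_mem (s : ℝ) : 0 ≤ G.th.f 0 s ∧ G.th.f 0 s ≤ 1 := by
  simpa [th, Tw.sub, cst, and_comm] using G.stp_mem G.n s

theorem th_lo (j : ℕ) (h : s ≤ 1) : G.th.f j s = if j = 0 then 1 else 0 := by
  simp [th, Tw.sub, cst, G.stp_top j h]

theorem th_le {top : Bool} (ht : top = false → s ≤ 1) (j : ℕ) (hj : j ≤ 4) :
    |G.th.f j s| ≤ sT G.d top j := by
  rcases eq_or_ne j 0 with rfl | j0
  · simpa [sT, cb, abs_of_nonneg (G.th_mem s).1] using (G.th_mem s).2
  cases top
  · simp [G.th_lo j (ht rfl), j0, sT]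
  · simpa [th, Tw.sub, cst, j0, sT] using G.stp_le (c := 1) hj G.npos.ne' s

end Gr

end Pool.Agent.MP_48470b_gt.Bl
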