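import Pool.Agent.MP_48470b_gt.Dic.Chart

/-! Majorants for the jets of smooth functions on three-space. -/

set_option autoImplicit false

open scoped ContDiff Topology
open Finset

noncomputable section

namespace Pool.Agent.MP_48470b_gt.Bl

open Dic

/-- words -/
abbrev Wr := List (Fin 3)

/-- iterated derivatives -/
def Wd : Wr → C3 →ₗ[ℝ] C3
  | [] => LinearMap.id
  | i :: J => Wd J ∘ₗ (pd i : C3 →ₗ[ℝ] C3)

@[simp] theorem Wd_nil (u : C3) : Wd [] u = u := rfl
@[simp] theorem Wd_cons (i : Fin 3) (J : Wr) (u : C3) : Wd (i :: J) u = Wd J (pd i u) := rfl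

/-- `e * b` majorizes the jet of order `m` of `u` at `y` -/
def Mj (y : P3) (m : ℕ) (u : C3) (e : ℝ) (b : Wr → ℚ) : Prop :=
  ∀ J : Wr, J.length ≤ m → |Wd J u y| ≤ e * b J

/-- the majorant of a product -/
def conv : (Wr → ℚ) → (Wr → ℚ) → Wr → ℚ
  | b, c, [] => b [] * c []
  | b, c, i :: J => conv (fun L => b (i :: L)) c J + conv b (fun L => c (i :: L)) J

variable {y : P3} {m : ℕ} {u v : C3} {e e' : ℝ} {b c : Wr → ℚ}

theorem Mj.pd (h : Mj y (m + 1) u e b) (i : Fin 3) : Mj y m (pd i u) e fun L => b (i :: L) :=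
  fun J hJ => h (i :: J) (Nat.succ_le_succ hJ)

theorem Mj.pred (h : Mj y (m + 1) u e b) : Mj y m u e b := fun J hJ => h J (Nat.le_succ_of_le hJ)

theorem Mj.mono (h : Mj y m u e b) (he : 0 ≤ e) (hb : ∀ J : Wr, J.length ≤ m → b J ≤ c J) :
    Mj y m u e c := fun J hJ =>
  (h J hJ).trans (mul_le_mul_of_nonneg_left (by exact_mod_cast hb J hJ) he)

theorem Mj.add (h : Mj y m u e b) (k : Mj y m v e c) : Mj y m (u + v) e fun J => b J + c J :=
  fun J hJ => by
    rw [map_add, C3.add_apply]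
    push_cast
    linarith [abs_add_le (Wd J u y) (Wd J v y), h J hJ, k J hJ]

theorem Mj.neg (h : Mj y m u e b) : Mj y m (-u) e b := fun J hJ => by
  rw [map_neg, C3.neg_apply, abs_neg]
  exact h J hJ

theorem Mj.smul (h : Mj y m u e b) {q : ℚ} (hq : 0 ≤ q) :
    Mj y m ((q : ℝ) • u) e fun J => q * b J := fun J hJ => by
  have : (0 : ℝ) ≤ q := by exact_mod_cast hq
  rw [map_smul, C3.smul_apply, abs_mul, abs_of_nonneg this]
  push_cast
  nlinarith [h J hJ]

theorem Mj.mul (h : Mj y m u e b) (k : Mj y m v e' c) : Mj y m (u * v) (e * e') (conv b c) := by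
  intro J
  induction J generalizing m u v b c with
  | nil =>
    intro hJ
    have := mul_le_mul (h [] hJ) (k [] hJ) (abs_nonneg _) ((abs_nonneg _).trans (h [] hJ))
    simp only [Wd_nil, C3.mul_apply, abs_mul, conv] at this ⊢
    push_cast
    linarith
  | cons i J ih =>
    intro hJ
    obtain ⟨m, rfl⟩ : ∃ n, m = n + 1 := ⟨m - 1, by simp at hJ; omega⟩
    have h1 := ih (h.pd i) k.pred (Nat.le_of_succ_le_succ hJ)
    have h2 := ih h.pred (k.pd i) (Nat.le_of_succ_le_succ hJ)
    rw [Wd_cons, Derivation.leibniz, smul_eq_mul, smul_eq_mul, map_add, C3.add_apply, conv,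
      mul_comm v]
    push_cast
    linarith [abs_add_le (Wd J (u * Dic.pd i v) y) (Wd J (Dic.pd i u * v) y)]

theorem fam {ι : Type*} (s : Finset ι) {u v : ι → C3} (he : 0 ≤ e) (hc : ∀ J, 0 ≤ c J)
    (h : ∀ J : Wr, J.length ≤ m → ∑ l ∈ s, |Wd J (u l) y| ≤ b J)
    (k : ∀ l ∈ s, Mj y m (u l) 0 0 ∨ Mj y m (v l) e c) :
    Mj y m (∑ l ∈ s, u l * v l) e (conv b c) := by
  intro J
  induction J generalizing m u v b c with
  | nil =>
    intro hJ
    have h0 : (0 : ℝ) ≤ e * c [] := mul_nonneg he (by exact_mod_cast hc [])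
    have := mul_le_mul_of_nonneg_right (h [] hJ) h0
    simp only [Wd_nil, C3.sum_apply, C3.mul_apply, conv, sum_mul] at this ⊢
    push_cast
    refine (abs_sum_le_sum_abs _ _).trans ((sum_le_sum fun l hl => ?_).trans
      (this.trans_eq (by ring)))
    rw [abs_mul]
    rcases k l hl with p | p
    · have := p [] hJ
      simp only [Wd_nil, zero_mul, abs_nonpos_iff] at this
      simp [this]
    · exact mul_le_mul_of_nonneg_left (p [] hJ) (abs_nonneg _)
  | cons i J ih =>
    intro hJ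
    obtain ⟨m, rfl⟩ : ∃ n, m = n + 1 := ⟨m - 1, by simp at hJ; omega⟩
    have h1 := ih (u := fun l => pd i (u l)) (b := fun L => b (i :: L)) hc
      (fun L hL => h (i :: L) (Nat.succ_le_succ hL))
      (fun l hl => (k l hl).imp (fun p => p.pd i) Mj.pred) (Nat.le_of_succ_le_succ hJ)
    have h2 := ih (v := fun l => pd i (v l)) (c := fun L => c (i :: L)) (fun _ => hc _)
      (fun L hL => h L (Nat.le_succ_of_le hL))
      (fun l hl => (k l hl).imp Mj.pred fun p => p.pd i) (Nat.le_of_succ_le_succ hJ)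
    rw [Wd_cons, show pd i (∑ l ∈ s, u l * v l) = ∑ l ∈ s, pd i (u l) * v l +
      ∑ l ∈ s, u l * pd i (v l) by
        simp only [map_sum, Derivation.leibniz, smul_eq_mul, ← sum_add_distrib]
        exact sum_congr rfl fun l _ => by ring, map_add, C3.add_apply, conv]
    push_cast
    exact (abs_add_le _ _).trans (by linarith)

theorem conv_nonneg (hb : ∀ J, 0 ≤ b J) (hc : ∀ J, 0 ≤ c J) (J : Wr) : 0 ≤ conv b c J := by
  induction J generalizing b c with
  | nil => exact mul_nonneg (hb _) (hc _)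
  | cons i J ih => exact add_nonneg (ih (fun _ => hb _) hc) (ih hb fun _ => hc _)

/-- equality near a point -/
def Loc (y : P3) (u v : C3) : Prop := (u : P3 → ℝ) =ᶠ[𝓝 y] v

theorem Loc.pd (h : Loc y u v) (i : Fin 3) : Loc y (pd i u) (pd i v) :=
  (Filter.EventuallyEq.fderiv (𝕜 := ℝ) h).mono fun x hx => by rw [pd_apply, pd_apply, hx]

theorem Loc.wd (h : Loc y u v) (J : Wr) : Wd J u y = Wd J v y := by
  induction J generalizing u v with
  | nil => exact h.self_of_nhds
  | cons i J ih => exact ih (h.pd i)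

theorem Mj.loc (h : Mj y m v e b) (k : Loc y u v) : Mj y m u e b := fun J hJ =>
  k.wd J ▸ h J hJ

/-- substitution of `z a` for the coordinate `xi a` -/
def sub (z : Fin 3 → C3) : C3 →ₐ[ℝ] C3 where
  toFun P := C3.mk (fun x => P fun a => z a x) (P.sm.comp (contDiff_pi.2 fun a => (z a).sm))
  map_one' := rfl
  map_mul' _ _ := rfl
  map_zero' := rfl
  map_add' _ _ := rfl
  commutes' _ := rfl

@[simp] theorem sub_apply (z : Fin 3 → C3) (P : C3) (x : P3) :
    sub z P x = P fun a => z a x := rfl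

@[simp] theorem sub_xi (z : Fin 3 → C3) (a : Fin 3) : sub z (xi a) = z a := rfl

theorem pd_sub (z : Fin 3 → C3) (P : C3) (i : Fin 3) :
    pd i (sub z P) = ∑ a, sub z (pd a P) * pd i (z a) := by
  ext x
  have h := ((P.diff _).hasFDerivAt.comp x
    (hasFDerivAt_pi.2 fun a => ((z a).diff x).hasFDerivAt)).fderiv
  refine (congrArg (fun l : P3 →L[ℝ] ℝ => l (Pi.single i 1)) h).trans ?_
  simp only [ContinuousLinearMap.comp_apply, fderiv_eq_sum P, C3.sum_apply, C3.mul_apply,
    sub_apply]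
  exact sum_congr rfl fun a _ => mul_comm _ _

/-- the majorant of a composition -/
def Cm (s : Fin 3 → Wr → ℚ) : ℕ → (Wr → ℚ) → Wr → ℚ
  | _, b, [] => b []
  | 0, _, _ :: _ => 0
  | k + 1, b, i :: J => conv (Cm s k fun L => b (0 :: L)) (fun L => s 0 (i :: L)) J +
      conv (Cm s k fun L => b (1 :: L)) (fun L => s 1 (i :: L)) J +
      conv (Cm s k fun L => b (2 :: L)) (fun L => s 2 (i :: L)) J

theorem Mj.sub {z : Fin 3 → C3} {s : Fin 3 → Wr → ℚ} (hz : ∀ a, Mj y m (z a) 1 (s a))
    (h : Mj (fun a => z a y) m u e b) : Mj y m (sub z u) e (Cm s m b) := by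
  induction m generalizing u b with
  | zero =>
    rintro (_ | ⟨i, J⟩) hJ
    · exact h [] hJ
    · simp at hJ
  | succ m ih =>
    rintro (_ | ⟨i, J⟩) hJ
    · exact h [] hJ
    · have k := fun a => (ih (fun a => (hz a).pred) (h.pd a)).mul ((hz a).pd i)
      rw [mul_one] at k
      rw [Wd_cons, pd_sub, Fin.sum_univ_three]
      exact (((k 0).add (k 1)).add (k 2)) J (Nat.le_of_succ_le_succ hJ)

theorem Cm_nonneg {s : Fin 3 → Wr → ℚ} (hs : ∀ a J, 0 ≤ s a J) (hb : ∀ J, 0 ≤ b J) (J : Wr) :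
    0 ≤ Cm s m b J := by
  induction m generalizing b J with
  | zero => cases J <;> simp [Cm, hb]
  | succ m ih =>
    rcases J with _ | ⟨i, J⟩
    · exact hb _
    · have k := fun a => conv_nonneg (ih (b := fun L => b (a :: L)) fun _ => hb _)
        (c := fun L => s a (i :: L)) (fun _ => hs _ _) J
      exact add_nonneg (add_nonneg (k 0) (k 1)) (k 2)

/-- permuting the variables permutes the letters -/
theorem Wd_perm (ρ : Equiv.Perm (Fin 3)) (J : Wr) (u : C3) :
    Wd J (sub (fun a => xi (ρ a)) u) = sub (fun a => xi (ρ a)) (Wd (J.map ρ.symm) u) := by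
  induction J generalizing u with
  | nil => rfl
  | cons i J ih =>
    rw [Wd_cons, List.map_cons, Wd_cons, ← ih, pd_sub, sum_eq_single (ρ.symm i)]
    · simp [pd_xi]
    · intro a _ ha
      rw [pd_xi, if_neg fun h => ha (by simp [h]), mul_zero]
    · simp

theorem Mj.perm {q : ℕ → ℚ} (ρ : Equiv.Perm (Fin 3))
    (h : Mj (fun a => y (ρ a)) m u e fun J => q J.length) :
    Mj y m (Bl.sub (fun a => xi (ρ a)) u) e fun J => q J.length := fun J hJ => by
  have := h (J.map ρ.symm) (by simpa using hJ)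
  rw [Wd_perm]
  simpa using this

/-- a function together with all its derivatives -/
structure Tw where
  /-- the derivatives -/
  f : ℕ → ℝ → ℝ
  d : ∀ k x, HasDerivAt (f k) (f (k + 1) x) x

theorem Tw.sm (F : Tw) (k : ℕ) : ContDiff ℝ ∞ (F.f k) := by
  refine contDiff_infty.2 fun n => ?_
  induction n generalizing k with
  | zero => exact contDiff_zero.2 (continuous_iff_continuousAt.2 fun x => (F.d k x).continuousAt)
  | succ n ih =>
    refine (contDiff_succ_iff_deriv (n := n)).2 ⟨fun x => (F.d k x).differentiableAt, by simp, ?_⟩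
    rw [deriv_eq (F.d k)]
    exact ih _

/-- the tower of a smooth function -/
def tw (φ : ℝ → ℝ) (h : ContDiff ℝ ∞ φ) : Tw :=
  ⟨fun k => deriv^[k] φ, fun k x => by
    simp only [Function.iterate_succ_apply']
    exact ((h.iterate_deriv k).differentiable (by simp) x).hasDerivAt⟩

/-- tensor products -/
def tp (F : Fin 3 → Tw) (α : Fin 3 → ℕ) : C3 :=
  ∏ a, C3.comp ((F a).f (α a)) (xi a) fun _ => ((F a).sm _).contDiffAt

@[simp] theorem tp_apply (F : Fin 3 → Tw) (α : Fin 3 → ℕ) (x : P3) :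
    tp F α x = ∏ a, (F a).f (α a) (x a) := by simp [tp]

theorem pd_comp (φ : ℝ → ℝ) (u : C3) (h : ∀ x, ContDiffAt ℝ ∞ φ (u x)) (i : Fin 3) (x : P3) :
    pd i (C3.comp φ u h) x = deriv φ (u x) * pd i u x := by
  have h2 := (((h x).differentiableAt (by simp)).hasDerivAt.comp_hasFDerivAt x
    (u.diff x).hasFDerivAt).fderiv
  exact congrArg (fun l : P3 →L[ℝ] ℝ => l (Pi.single i 1)) h2

theorem Wd_tp (F : Fin 3 → Tw) (α : Fin 3 → ℕ) (J : Wr) :
    Wd J (tp F α) = tp F fun a => α a + J.count a := by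
  induction J generalizing α with
  | nil => rfl
  | cons i J ih =>
    have : pd i (tp F α) = tp F fun a => α a + if i = a then 1 else 0 := by
      ext x
      rw [tp_apply, tp]
      fin_cases i <;> simp [Fin.prod_univ_three, pd_comp, pd_xi, (Tw.d _ _ _).deriv] <;> ring
    rw [Wd_cons, this, ih]
    congr 1
    ext a
    simp [List.count_cons, add_assoc, add_comm]

/-- the majorant of a tensor product -/
def ten (S : Fin 3 → ℕ → ℚ) (J : Wr) : ℚ := S 0 (J.count 0) * S 1 (J.count 1) * S 2 (J.count 2)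

theorem fam_tp {F : ℕ → Tw} {n : ℕ} {S : Fin 3 → ℕ → ℚ}
    (h : ∀ a k, k ≤ m → ∑ l ∈ range n, |(F l).f k (y a)| ≤ S a k) (J : Wr) (hJ : J.length ≤ m) :
    ∑ L ∈ Fintype.piFinset fun _ : Fin 3 => range n, |Wd J (tp (fun a => F (L a)) 0) y| ≤
      ten S J := by
  simp only [Wd_tp, tp_apply, abs_prod, Pi.zero_apply, zero_add]
  rw [← prod_univ_sum (fun _ : Fin 3 => range n) fun a l => |(F l).f (J.count a) (y a)|]
  refine (prod_le_prod (fun a _ => sum_nonneg fun _ _ => abs_nonneg _) fun a _ =>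
    h a _ (List.count_le_length.trans hJ)).trans_eq ?_
  simp [ten, Fin.prod_univ_three]

theorem Mj_tp {F : Fin 3 → Tw} {S : Fin 3 → ℕ → ℚ}
    (h : ∀ a k, k ≤ m → |(F a).f k (y a)| ≤ S a k) : Mj y m (tp F 0) 1 (ten S) := fun J hJ => by
  simp only [Wd_tp, tp_apply, abs_prod, Pi.zero_apply, zero_add, one_mul]
  refine (prod_le_prod (fun a _ => abs_nonneg _) fun a _ =>
    h a _ (List.count_le_length.trans hJ)).trans_eq ?_
  simp [ten, Fin.prod_univ_three]

/-- the sum of the absolute values of the derivatives of order `k` -/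
def Nk (y : P3) : ℕ → C3 → ℝ
  | 0, u => |u y|
  | k + 1, u => ∑ i, Nk y k (pd i u)

theorem Nk_nonneg (k : ℕ) (u : C3) : 0 ≤ Nk y k u := by
  induction k generalizing u with
  | zero => exact abs_nonneg _
  | succ k ih => exact sum_nonneg fun _ _ => ih _

theorem Wd_le_Nk (J : Wr) (u : C3) : |Wd J u y| ≤ Nk y J.length u := by
  induction J generalizing u with
  | nil => exact le_rfl
  | cons i J ih =>
    exact (ih _).trans (single_le_sum (f := fun i => Nk y J.length (pd i u))
      (fun _ _ => Nk_nonneg _ _) (mem_univ i))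

theorem Nk_add (k : ℕ) (u v : C3) : Nk y k (u + v) ≤ Nk y k u + Nk y k v := by
  induction k generalizing u v with
  | zero => exact abs_add_le _ _
  | succ k ih =>
    simp only [Nk, map_add, ← sum_add_distrib]
    exact sum_le_sum fun _ _ => ih _ _

theorem Nk_smul (k : ℕ) (c : ℝ) (u : C3) : Nk y k (c • u) = |c| * Nk y k u := by
  induction k generalizing u with
  | zero => exact abs_mul _ _
  | succ k ih => simp only [Nk, Derivation.map_smul, ih, mul_sum]

theorem Nk_loc (h : Loc y u v) (k : ℕ) : Nk y k u = Nk y k v := by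
  induction k generalizing u v with
  | zero => exact congrArg abs h.self_of_nhds
  | succ k ih => exact sum_congr rfl fun i _ => ih (h.pd i)

theorem Nk_mul (k : ℕ) (u v : C3) : Nk y k (u * v) ≤
    ∑ p ∈ antidiagonal k, (k.choose p.1 : ℝ) * (Nk y p.1 u * Nk y p.2 v) := by
  induction k generalizing u v with
  | zero => simp [Nk, abs_mul]
  | succ k ih =>
    rw [sum_antidiagonal_choose_succ_mul fun a b => Nk y a u * Nk y b v]
    have e : ∑ p ∈ antidiagonal k, (k.choose p.2 : ℝ) * (Nk y (p.1 + 1) u * Nk y p.2 v) =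
        ∑ p ∈ antidiagonal k, (k.choose p.1 : ℝ) * (Nk y (p.1 + 1) u * Nk y p.2 v) :=
      sum_congr rfl fun p hp => by rw [Nat.choose_symm_of_eq_add (mem_antidiagonal.1 hp).symm]
    rw [e]
    simp only [Nk, Derivation.leibniz, smul_eq_mul, mul_sum, sum_mul]
    rw [sum_comm, sum_comm (s := antidiagonal k), ← sum_add_distrib]
    refine sum_le_sum fun i _ => (Nk_add _ _ _).trans (add_le_add (ih _ _) ?_)
    rw [mul_comm v]
    exact ih _ _

/-- the Taylor seminorm of order four with radius `r` at the point `y` -/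
def tn (r : ℝ) (y : P3) (u : C3) : ℝ :=
  Nk y 0 u + r * Nk y 1 u + r ^ 2 / 2 * Nk y 2 u + r ^ 3 / 6 * Nk y 3 u + r ^ 4 / 24 * Nk y 4 u

variable {r : ℝ}

theorem tn_nonneg (hr : 0 ≤ r) (u : C3) : 0 ≤ tn r y u := by
  have := fun k => Nk_nonneg (y := y) k u
  have h0 := this 0; have h1 := this 1; have h2 := this 2; have h3 := this 3; have h4 := this 4
  unfold tn
  positivity

theorem abs_le_tn (hr : 0 ≤ r) (u : C3) : |u y| ≤ tn r y u := by
  have := fun k => Nk_nonneg (y := y) k u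
  have h1 := this 1; have h2 := this 2; have h3 := this 3; have h4 := this 4
  have : 0 ≤ r * Nk y 1 u + r ^ 2 / 2 * Nk y 2 u + r ^ 3 / 6 * Nk y 3 u + r ^ 4 / 24 * Nk y 4 u := by
    positivity
  unfold tn
  linarith [show Nk y 0 u = |u y| from rfl]

theorem tn_add (hr : 0 ≤ r) (u v : C3) : tn r y (u + v) ≤ tn r y u + tn r y v := by
  have h := fun (k : ℕ) (c : ℝ) (p : 0 ≤ c) => mul_le_mul_of_nonneg_left (Nk_add (y := y) k u v) p
  unfold tn
  linarith [h 0 1 zero_le_one, h 1 r hr, h 2 (r ^ 2 / 2) (by positivity),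
    h 3 (r ^ 3 / 6) (by positivity), h 4 (r ^ 4 / 24) (by positivity)]

theorem tn_smul (c : ℝ) (u : C3) : tn r y (c • u) = |c| * tn r y u := by
  simp only [tn, Nk_smul]
  ring

theorem tn_neg (u : C3) : tn r y (-u) = tn r y u := by
  rw [← neg_one_smul ℝ u, tn_smul]
  simp

theorem tn_zero : tn r y 0 = 0 := by
  rw [← zero_smul ℝ (0 : C3), tn_smul]
  simp

theorem tn_loc (h : Loc y u v) : tn r y u = tn r y v := by simp only [tn, Nk_loc h]

theorem tn_one : tn r y 1 = 1 := by simp [tn, Nk]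

/-- the local variables -/
theorem tn_xi (a : Fin 3) (p c : ℝ) :
    tn r y (p • xi a - algebraMap ℝ C3 c) = |p * y a - c| + r * |p| := by
  fin_cases a <;> simp [tn, Nk, pd_xi, Fin.sum_univ_three]

theorem tn_mul (hr : 0 ≤ r) (u v : C3) : tn r y (u * v) ≤ tn r y u * tn r y v := by
  have h := fun (k : ℕ) (c : ℝ) (p : 0 ≤ c) => mul_le_mul_of_nonneg_left (Nk_mul (y := y) k u v) p
  have k0 := h 0 1 zero_le_one
  have k1 := h 1 r hr
  have k2 := h 2 (r ^ 2 / 2) (by positivity)
  have k3 := h 3 (r ^ 3 / 6) (by positivity)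
  have k4 := h 4 (r ^ 4 / 24) (by positivity)
  simp only [Nat.sum_antidiagonal_eq_sum_range_succ_mk, sum_range_succ, sum_range_zero] at k0 k1 k2 k3 k4
  norm_num [Nat.choose] at k0 k1 k2 k3 k4
  have a := fun k => Nk_nonneg (y := y) k u
  have b := fun k => Nk_nonneg (y := y) k v
  have a1 := a 1; have a2 := a 2; have a3 := a 3; have a4 := a 4
  have b1 := b 1; have b2 := b 2; have b3 := b 3; have b4 := b 4
  have : 0 ≤ r * Nk y 1 u * (r ^ 4 / 24 * Nk y 4 v) +
      r ^ 2 / 2 * Nk y 2 u * (r ^ 3 / 6 * Nk y 3 v + r ^ 4 / 24 * Nk y 4 v) +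
      r ^ 3 / 6 * Nk y 3 u * (r ^ 2 / 2 * Nk y 2 v + r ^ 3 / 6 * Nk y 3 v + r ^ 4 / 24 * Nk y 4 v) +
      r ^ 4 / 24 * Nk y 4 u * (r * Nk y 1 v + r ^ 2 / 2 * Nk y 2 v + r ^ 3 / 6 * Nk y 3 v +
        r ^ 4 / 24 * Nk y 4 v) := by positivity
  unfold tn
  linarith

/-- the Cauchy majorant -/
def cq (r : ℚ) (k : ℕ) : ℚ := k.factorial / r ^ k

theorem Mj_of_tn {r : ℚ} (hr : 0 < r) (h : tn r y u ≤ e) : Mj y 4 u e fun J => cq r J.length :=
  fun J hJ => by
  have r0 : (0 : ℝ) < r := by exact_mod_cast hr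
  refine (Wd_le_Nk J u).trans ?_
  have a := fun k => Nk_nonneg (y := y) k u
  have a0 := a 0
  have a1 := mul_nonneg r0.le (a 1)
  have a2 := mul_nonneg (pow_pos r0 2).le (a 2)
  have a3 := mul_nonneg (pow_pos r0 3).le (a 3)
  have a4 := mul_nonneg (pow_pos r0 4).le (a 4)
  unfold tn at h
  simp only [cq]
  push_cast
  rw [← mul_div_assoc, le_div_iff₀ (pow_pos r0 _)]
  generalize J.length = k at hJ
  interval_cases k <;> norm_num [Nat.factorial] <;> linarith

/-- a smooth odd function that is the inverse away from the origin -/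
def iv (s : ℝ) : ℝ := s / (s ^ 2 + expNegInvGlue (4 / 25 - s ^ 2))

theorem iv_sm : ContDiff ℝ ∞ iv :=
  contDiff_id.div ((contDiff_id.pow 2).add (expNegInvGlue.contDiff.comp
    (contDiff_const.sub (contDiff_id.pow 2)))) fun s => by
      rcases eq_or_ne s 0 with rfl | h
      · simp
      · exact (add_pos_of_pos_of_nonneg (by positivity) (expNegInvGlue.nonneg _)).ne'

theorem iv_neg (s : ℝ) : iv (-s) = -iv s := by simp [iv, neg_div]

theorem iv_eq {s : ℝ} (h : 2 / 5 ≤ s) : iv s = s⁻¹ := by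
  rw [iv, expNegInvGlue.zero_of_nonpos (by nlinarith), add_zero]
  field_simp

/-- the inverse of a coordinate -/
def rc (j : Fin 3) : C3 := C3.comp iv (xi j) fun _ => iv_sm.contDiffAt

@[simp] theorem rc_apply (j : Fin 3) (x : P3) : rc j x = iv (x j) := rfl

/-- the change of chart that exchanges the coordinates `j` and `3` of four-space -/
def sw (j a : Fin 3) : C3 := if a = j then rc j else xi a * rc j

theorem near {j : Fin 3} {c : ℝ} (h : c < y j) : ∀ᶠ x in 𝓝 y, c < x j :=
  (continuous_apply j).continuousAt.eventually (lt_mem_nhds h)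

theorem rc_loc {j : Fin 3} (h : 2 / 5 < y j) : Loc y (xi j * rc j) 1 :=
  (near h).mono fun x hx => by
    rw [C3.mul_apply, rc_apply, iv_eq hx.le, xi_apply, mul_inv_cancel₀ (by linarith), C3.one_apply]

theorem tn_rc {j : Fin 3} (h : 2 / 5 < y j) (u : C3) : tn r y (u * (xi j * rc j - 1)) = 0 := by
  rw [← tn_zero (r := r) (y := y)]
  exact tn_loc ((rc_loc h).mono fun x hx => by rw [C3.mul_apply, C3.sub_apply, hx]; simp)

end Pool.Agent.MP_48470b_gt.Bl
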