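import Pool.Agent.MP_48470b_gt.Bl.Glob

/-! The jets of the blended functions. -/

set_option autoImplicit false

open Finset Function
open scoped Topology ContDiff

noncomputable section

namespace Pool.Agent.MP_48470b_gt.Bl

open Dic Sph

/-- the majorant of a constant -/
def dl (c : ℚ) : Wr → ℚ
  | [] => c
  | _ :: _ => 0

/-- the majorant of `1 - c b` -/
def om (c : ℚ) (B : Wr → ℚ) : Wr → ℚ
  | [] => 1
  | i :: J => c * B (i :: J)

/-- the majorants of the factors of the weights -/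
def hM (c : ℚ) (B : Fin 3 → Wr → ℚ) : Fin 4 → Wr → ℚ :=
  ![om c (B 0), om c (B 1), om c (B 2), dl (1 - c)]

/-- the majorant of a weight -/
def lM (B : Fin 3 → Wr → ℚ) (j : Fin 4) (J : Wr) : ℚ :=
  1 / 6 * (dl 1 J + 4 * conv (conv (hM (1 / 2) B (ta j 0)) (hM (1 / 2) B (ta j 1)))
    (hM (1 / 2) B (ta j 2)) J + conv (conv (hM 1 B (ta j 0)) (hM 1 B (ta j 1))) (hM 1 B (ta j 2)) J)

/-- the majorant of the total error -/
def fM (L D : Fin 4 → Wr → ℚ) (J : Wr) : ℚ :=
  conv (L 0) (D 0) J + conv (L 1) (D 1) J + conv (L 2) (D 2) J + conv (L 3) (D 3) J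

/-- the majorant of the change of chart -/
def sM (d : ℚ) (γ : Fin 3 → ℚ) (i a : Fin 3) : Wr → ℚ :=
  ten fun b k => if b = i then k.factorial * (1 + d) ^ (k + 1) else
    if k = 0 then (if b = a then γ a else 1) else if k = 1 ∧ b = a then 1 else 0

variable {y : P3} {ε : ℝ} {B : Fin 3 → Wr → ℚ} {L D : Fin 4 → Wr → ℚ}

theorem Mj_cst {m : ℕ} {c : ℚ} (h : 0 ≤ c) : Mj y m ((c : ℝ) • 1) 1 (dl c) := by
  rintro (_ | ⟨i, J⟩) -
  · simp [dl, abs_of_nonneg h, ← Rat.cast_abs]
  · simp [dl]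

theorem Mj.om {m : ℕ} {b : C3} {B : Wr → ℚ} (h : Mj y m b 1 B) (p : 0 ≤ b y ∧ b y ≤ 1) {c : ℚ}
    (h0 : 0 ≤ c) (h1 : c ≤ 1) : Mj y m (1 - (c : ℝ) • b) 1 (om c B) := by
  have c0 : (0 : ℝ) ≤ c := by exact_mod_cast h0
  have c1 : (c : ℝ) ≤ 1 := by exact_mod_cast h1
  rintro (_ | ⟨i, J⟩) hJ
  · simp only [Bl.om, Wd_nil, C3.sub_apply, C3.one_apply, C3.smul_apply, Rat.cast_one, mul_one]
    exact abs_le.2 ⟨by nlinarith, by nlinarith⟩
  · simpa [Bl.om] using (h.smul h0).neg (i :: J) hJ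

/-- the identity -/
def idT : Tw := ⟨fun k s => if k = 0 then s else if k = 1 then 1 else 0, fun k s => by
  rcases k with _ | k
  · exact hasDerivAt_id s
  · simpa using hasDerivAt_const s _⟩

theorem Mj_sw {d : ℚ} {γ : Fin 3 → ℚ} (hy : ∀ a, 0 ≤ y a ∧ y a ≤ γ a) {i : Fin 3}
    (h : 2 / 5 < y i) (hi : 1 ≤ (1 + d) * y i) (a : Fin 3) : Mj y 4 (sw i a) 1 (sM d γ i a) := by
  rw [show sw i a = tp (fun b => if b = i then tw iv iv_sm else if b = a then idT else cst 1) 0 by
    ext x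
    fin_cases i <;> fin_cases a <;> simp [sw, Fin.prod_univ_three, tw, idT, cst, mul_comm]]
  refine Mj_tp fun b k _ => ?_
  by_cases e : b = i
  · subst e
    have p : 0 < y b := by linarith
    have : iv =ᶠ[𝓝 (y b)] Inv.inv := (lt_mem_nhds h).mono fun s hs => iv_eq hs.le
    simp only [if_true, tw]
    rw [← iteratedDeriv_eq_iterate, this.iteratedDeriv_eq, iteratedDeriv_eq_iterate,
      iter_deriv_inv, show (-1 - k : ℤ) = -(k + 1 : ℕ) by push_cast; ring, zpow_neg, zpow_natCast,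
      ← inv_pow]
    push_cast
    simp only [abs_mul, abs_pow, abs_neg, abs_one, one_pow, one_mul, Nat.abs_cast,
      abs_of_pos (inv_pos.2 p)]
    gcongr
    rwa [inv_eq_one_div, div_le_iff₀ p]
  · simp only [if_neg e]
    by_cases f : b = a
    · subst f
      simp only [idT, if_true, and_true]
      split_ifs <;> simp [abs_of_nonneg (hy b).1, (hy b).2]
    · simp only [if_neg f, cst]
      split_ifs <;> simp_all

theorem Wd_pd (J : Wr) (i : Fin 3) (u : C3) : Wd J (pd i u) = pd i (Wd J u) := by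
  induction J generalizing u with
  | nil => rfl
  | cons j J ih => rw [Wd_cons, Wd_cons, pd_comm, ih]

theorem Wd_of_perm {I J : Wr} (h : I.Perm J) (u : C3) : Wd I u = Wd J u := by
  induction h generalizing u with
  | nil => rfl
  | cons i _ ih => exact ih _
  | swap i j J => rw [Wd_cons, Wd_cons, Wd_cons, Wd_cons, pd_comm]
  | trans _ _ p q => exact (p u).trans (q u)

/-- comparison of majorants up to the order of the letters -/
def Le (b c : Wr → ℚ) : Prop := ∀ J : Wr, J.length ≤ 4 → ∃ I : Wr, I.Perm J ∧ b I ≤ c J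

theorem Mj.le {u : C3} {b c : Wr → ℚ} (h : Mj y 4 u ε b) (he : 0 ≤ ε) (k : Le b c) :
    Mj y 4 u ε c := fun J hJ => by
  obtain ⟨I, p, q⟩ := k J hJ
  rw [← Wd_of_perm p]
  exact (h I (p.length_eq ▸ hJ)).trans (mul_le_mul_of_nonneg_left (by exact_mod_cast q) he)

/-- inequalities between tables of majorants -/
structure Tab (d r : ℚ) (γ : Fin 3 → ℚ) (A Z : Fin 3 → Bool) (E : Wr → ℚ) (B : Fin 3 → Wr → ℚ)
    (L D : Fin 4 → Wr → ℚ) : Prop where
  e : Le (Gr.eM d r A Z) E
  d3 : Le (Gr.eM d r (fun _ => false) Z) (D 3)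
  b0 : ∀ i J, 0 ≤ B i J
  d0 : ∀ i J, 0 ≤ D i J
  b : ∀ i, A i = true → Le (Cm (sM d γ i) 4 (ten fun a => sT d (A a))) (B i)
  d : ∀ i, A i = true →
    Le (fun J => Cm (sM d γ i) 4 E J + conv (B i) (fun J => cq r J.length) J) (D i.castSucc)
  l : ∀ j, D j = 0 ∨ Le (lM B j) (L j)

theorem conv_zero (b : Wr → ℚ) (J : Wr) : conv b 0 J = 0 := by
  induction J generalizing b with
  | nil => exact mul_zero _
  | cons i J ih => exact (congrArg₂ (· + ·) (ih _) (ih _)).trans (add_zero 0)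

theorem comb {b u : Fin 4 → C3} {q : C3} (h : ∑ j, wt b j * b j = 1)
    (hb : ∀ c : ℚ, 0 ≤ c → c ≤ 1 → ∀ j, Mj y 4 (1 - (c : ℝ) • b j) 1 (hM c B j))
    (hl : ∀ j, D j = 0 ∨ Le (lM B j) (L j)) (hu : ∀ j, Mj y 4 (u j - b j * q) ε (D j)) :
    Mj y 4 (∑ j, wt b j * u j - q) ε (fM L D) := by
  have w : ∀ j, Mj y 4 (wt b j * (u j - b j * q)) ε (conv (L j) (D j)) := fun j => by
    have p := fun c h0 h1 => ((hb c h0 h1 (ta j 0)).mul (hb c h0 h1 (ta j 1))).mul
      (hb c h0 h1 (ta j 2))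
    simp only [mul_one] at p
    have l : Mj y 4 (wt b j) 1 (lM B j) := by
      convert (((Mj_cst zero_le_one).add ((p (1 / 2) (by norm_num) (by norm_num)).smul (q := 4)
        (by norm_num))).add (p 1 zero_le_one le_rfl)).smul (q := 1 / 6) (by norm_num) using 1
      · simp [wt, Fin.prod_univ_three]
      · rfl
    rcases hl j with e | e
    · intro J hJ
      simpa only [e, conv_zero, one_mul] using l.mul (hu j) J hJ
    · simpa only [one_mul] using (l.le zero_le_one e).mul (hu j)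
  convert (((w 0).add (w 1)).add (w 2)).add (w 3) using 1
  · simp only [Fin.sum_univ_four] at h ⊢
    linear_combination q * h
  · rfl

namespace Gr

variable {G : Gr} {P : O3 → Bx → C3} {K : Bx} {r : ℚ} {γ : Fin 3 → ℚ} {E : Wr → ℚ}
  {A Z : Fin 3 → Bool}

/-- `y` lies in the closed box `K` -/
def Core (G : Gr) (y : P3) (K : Bx) : Prop :=
  ∀ a, K a < G.n ∧ G.t (K a) ≤ y a ∧ y a ≤ G.t (K a + 1)

/-- position of a point with respect to the boundary of the chart -/
structure Pos (G : Gr) (y : P3) (K : Bx) (γ : Fin 3 → ℚ) (A Z : Fin 3 → Bool) : Prop where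
  g : ∀ a, y a ≤ γ a
  a : ∀ a, A a = false → (1 + G.d) * y a < 1
  z : ∀ a, Z a = true → K a + 1 = G.n ∧ 1 - G.d ≤ y a

theorem Core.mem (k : G.Core y K) (a : Fin 3) : 0 ≤ y a ∧ y a ≤ 1 :=
  ⟨by linarith [G.le (K a).zero_le (k a).1.le, G.t0, (k a).2.1],
    by linarith [G.le (Nat.succ_le_of_lt (k a).1) le_rfl, G.t1, (k a).2.2]⟩

theorem Core.low (k : G.Core y K) {a : Fin 3} (h : K a + 1 ≠ G.n) : (1 + G.d) * y a < 1 := by
  nlinarith [G.lt (k := K a + 1) (l := G.n) (by have := (k a).1; omega) le_rfl, G.t1, (k a).2.2,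
    G.dp, k.mem a]

theorem side (h : Dat G.n P) (hr : 0 < r) (hε : 0 ≤ ε) (hK : Monotone K) (F : G.Face P K r ε)
    (k : G.Core y K) (hγ : G.Pos y K γ A Z)
    (T : Tab G.d r γ A Z E B L D) (s : ℝ) (o : O3) (q : C3)
    (i : Fin 3) (Q : 1 ≤ (1 + G.d) * y i →
      Mj y 4 (sub (sw i) (P o K) - q) ε fun J => cq r J.length) :
    (0 ≤ ch (G.be i.castSucc) y ∧ ch (G.be i.castSucc) y ≤ 1) ∧
      Mj y 4 (ch (G.be i.castSucc)) 1 (B i) ∧
      Mj y 4 (ch (lf s i.castSucc (G.U P o)) - ch (G.be i.castSucc) * q) ε (D i.castSucc) := by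
  have d0 := G.dp
  have d1 := G.dl
  have m := k.mem
  rcases lt_or_ge ((1 + G.d) * y i) 1 with p | p
  · have l1 := lf_off G.dat1 (m i).1 p 1 none
    have l2 := lf_off h (m i).1 p s o
    have e : ch (G.be i.castSucc) y = 0 := l1.self_of_nhds
    refine ⟨by simp [e], Mj.loc (fun J hJ => ?_) l1, Mj.loc (v := 0) (fun J hJ => ?_)
      ((l1.and l2).mono fun x hx => ?_)⟩
    · simpa using T.b0 i J
    · simpa using mul_nonneg hε (show (0 : ℝ) ≤ D i.castSucc J by exact_mod_cast T.d0 _ J)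
    · rw [C3.sub_apply, C3.mul_apply, hx.2, show ch (G.be i.castSucc) x = _ from hx.1]
      simp
  have yi : 5 / 6 ≤ y i := by nlinarith [m i]
  have y1 : 1 - G.d ≤ y i := by nlinarith [m i]
  have hA : A i = true := by
    by_contra c
    linarith [hγ.a i (Bool.eq_false_iff.2 c)]
  have hn : K i + 1 = G.n := by
    by_contra c
    linarith [k.low c]
  have p0 : 0 < y i := by linarith
  have z : ∀ a, sw i a y = (if a = i then 1 else y a) / y i := fun a => by
    unfold sw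
    split_ifs <;> simp [iv_eq (show 2 / 5 ≤ y i by linarith), div_eq_mul_inv]
  have z0 : ∀ a, 0 ≤ sw i a y := fun a => by
    rw [z]
    split_ifs
    exacts [by positivity, div_nonneg (m a).1 p0.le]
  have zA : ∀ a, A a = false → sw i a y ≤ 1 := fun a ha => by
    rw [z, if_neg fun e => by simp [e, hA] at ha, div_le_one p0]
    nlinarith [hγ.a a ha]
  have zZ : ∀ a, Z a = true → K a + 1 = G.n ∧ 1 - G.d ≤ sw i a y := fun a ha => by
    refine ⟨(hγ.z a ha).1, ?_⟩
    rw [z, le_div_iff₀ p0]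
    split_ifs <;> nlinarith [hγ.z a ha, m i]
  have zI : G.In (fun a => sw i a y) K := fun a => by
    refine ⟨(k a).1, ?_⟩
    simp only [z, le_div_iff₀ p0, div_le_iff₀ p0]
    have t0 := G.le (K a).zero_le (k a).1.le
    rw [G.t0] at t0
    split_ifs with e
    · rw [e, hn, G.t1]
      exact ⟨by nlinarith [m i, k i], p⟩
    · exact ⟨by nlinarith [m i, m a, k a], by nlinarith [m i, m a, k a]⟩
  have S := Mj_sw (d := G.d) (fun a => ⟨(m a).1, hγ.g a⟩) (by linarith) p
  have l1 := lf_sw m yi 1 G.Th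
  have l2 := lf_sw m yi s (G.U P o)
  have b := (Mj.sub S ((Mj_tp fun a => G.th_le (zA a)).loc (G.Th_loc z0))).le zero_le_one
    (T.b i hA)
  have c := b.mul (Q p)
  rw [one_mul] at c
  refine ⟨?_, b.loc l1, (((Mj.sub S ((inchart (o := o) h hr hε hK F z0 zI zA zZ).le hε
    T.e)).add c).le hε (T.d i hA)).loc
      ((l1.and l2).mono fun x hx => ?_)⟩
  · rw [show ch (G.be i.castSucc) y = _ from l1.self_of_nhds, sub_apply,
      G.Th_pos fun a => by linarith [z0 a], tp_apply]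
    exact ⟨prod_nonneg fun a _ => (G.th_mem _).1,
      prod_le_one (fun a _ => (G.th_mem _).1) fun a _ => (G.th_mem _).2⟩
  · rw [C3.sub_apply, C3.mul_apply, hx.2, show ch (G.be i.castSucc) x = _ from hx.1]
    simp only [sub_apply, C3.add_apply, C3.sub_apply, C3.mul_apply]
    ring

theorem jet (h : Dat G.n P) (hr : 0 < r) (hε : 0 ≤ ε) (hK : Monotone K) (F : G.Face P K r ε)
    (k : G.Core y K) (hγ : G.Pos y K γ A Z)
    (T : Tab G.d r γ A Z E B L D) (s : ℝ) (c : Fin 4 → O3)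
    (Q : ∀ i : Fin 3, 1 ≤ (1 + G.d) * y i →
      Mj y 4 (sub (sw i) (P (c i.castSucc) K) - P (c 3) K) ε fun J => cq r J.length) :
    Mj y 4 (ch (G.gl s P c) - P (c 3) K) ε (fM L D) := by
  have m := k.mem
  have S := fun i => side h hr hε hK F k hγ T s _ _ i (Q i)
  have l1 : Loc y (ch (G.be 3)) G.Th := lf_main m 1 G.Th
  have e : ∀ j : Fin 4, (∃ i : Fin 3, j = i.castSucc) ∨ j = 3 := by decide
  rw [gl, map_sum]
  simp only [map_mul, map_wt]
  refine comb (by simpa only [map_sum, map_mul, map_wt, map_one] using congrArg ch G.wt_be)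
    (B := B) (fun a a0 a1 j => ?_) T.l fun j => ?_
  · rcases e j with ⟨i, rfl⟩ | rfl
    · convert (S i).2.1.om (S i).1 a0 a1 using 1
      fin_cases i <;> rfl
    · intro J hJ
      rw [map_sub, map_smul, C3.sub_apply, C3.smul_apply,
        Loc.wd (l1.trans (G.Th_loc fun a => (m a).1)), Wd_tp, tp_apply]
      simp only [G.th_lo _ (m _).2]
      rcases J with _ | ⟨i, J⟩
      · have : (a : ℝ) ≤ 1 := by exact_mod_cast a1
        simp [hM, Bl.dl, abs_of_nonneg (sub_nonneg.2 this)]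
      · rw [prod_eq_zero (mem_univ i) (by simp)]
        simp [hM, Bl.dl]
  · rcases e j with ⟨i, rfl⟩ | rfl
    · exact (S i).2.2
    · refine ((inchart (o := c 3) (A := fun _ => false) h hr hε hK F (fun a => (m a).1)
        (fun a => ⟨(k a).1, by linarith [(k a).2.1, G.dp], by linarith [(k a).2.2, G.dp]⟩)
        (fun a _ => (m a).2) hγ.z).le hε T.d3).loc
        ((l1.and (lf_main m s (G.U P (c 3)))).mono fun x hx => ?_)
      rw [C3.sub_apply, C3.mul_apply, hx.2, show ch (G.be 3) x = _ from hx.1]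
      rfl

/-- the mismatch under the change of chart -/
def Proj (G : Gr) (K : Bx) (r : ℚ) (ε : ℝ) (p q : C3) : Prop :=
  K 2 + 1 = G.n → ∀ z, G.Core z K → 1 ≤ (1 + G.d) * z 2 → tn r z (sub (sw 2) p - q) ≤ ε

theorem proj (h : Dat G.n P) (hr : 0 < r) (hK : Monotone K) (k : G.Core y K) {i : Fin 3}
    (p : 1 ≤ (1 + G.d) * y i) {o o' : O3}
    (Q : G.Proj K r ε (P (o.map (Equiv.swap i 2)) K) (P (o'.map (Equiv.swap i 2)) K)) :
    Mj y 4 (sub (sw i) (P o K) - P o' K) ε fun J => cq r J.length := by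
  have a : K i + 1 = G.n := by
    by_contra c
    linarith [k.low c]
  have b : K i = K 2 := by
    have := hK (show i ≤ 2 from Fin.le_last i)
    have := (k 2).1
    omega
  have e : K ∘ Equiv.swap i 2 = K := funext fun c => by
    simp only [comp_apply, Equiv.swap_apply_def]
    split_ifs <;> simp_all
  have := Q (b ▸ a) (y ∘ Equiv.swap i 2) (fun c => by
    have := k (Equiv.swap i 2 c)
    rwa [show K (Equiv.swap i 2 c) = K c from congrFun e c] at this) (by simpa using p)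
  convert (Mj_of_tn hr this).perm (Equiv.swap i 2) using 1
  ext x
  simp only [sub_apply, C3.sub_apply, ← h.sym hK (k 2).1 _ e]
  refine congrArg₂ (· - ·) (congrArg (fun z => P o K z) (funext fun c => ?_))
    (congrArg (fun z => P o' K z) (funext fun c => by simp))
  fin_cases i <;> fin_cases c <;> simp [sw, Equiv.swap_apply_def]

theorem jet_bs (h : Dat G.n P) (hr : 0 < r) (hε : 0 ≤ ε) (hK : Monotone K) (F : G.Face P K r ε)
    (Q : G.Proj K r ε (P none K) (P none K)) (k : G.Core y K) (hγ : G.Pos y K γ A Z)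
    (T : Tab G.d r γ A Z E B L D) :
    Mj y 4 (ch (G.bs P) - P none K) ε (fM L D) :=
  jet h hr hε hK F k hγ T 1 _ fun _ p => proj h hr hK k p Q

theorem oc_sw : ∀ (i : Fin 3) (m : Fin 4), ∃ l, (oc (ta i.castSucc m)).map (Equiv.swap i 2) =
    oc (ta 2 l) ∧ (oc m).map (Equiv.swap i 2) = oc l := by decide

theorem jet_bv (h : Dat G.n P) (hr : 0 < r) (hε : 0 ≤ ε) (hK : Monotone K) (F : G.Face P K r ε)
    (Q : ∀ m, G.Proj K r ε (P (oc (ta 2 m)) K) (P (oc m) K)) (k : G.Core y K)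
    (hγ : G.Pos y K γ A Z) (T : Tab G.d r γ A Z E B L D)
    (m : Fin 4) : Mj y 4 (ch (G.bv P m) - P (oc m) K) ε (fM L D) := by
  have := jet h hr hε hK F k hγ T (-1) (fun j => oc (ta j m)) fun i p => by
    obtain ⟨l, u, v⟩ := oc_sw i m
    exact proj h hr hK k p (by rw [u, ta3, v]; exact Q l)
  rwa [ta3] at this

end Gr

end Pool.Agent.MP_48470b_gt.Bl
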